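import Mathlib

set_option autoImplicit false

/-! Ordered modules and their coordinates: abstract part. -/

namespace Pool.Agent.TH783.OV

open Set

/-- Points of the index structure: a strict weak order and real coordinates. -/
abbrev Z : Type := (ℕ → ℕ → Bool) × (ℕ → ℝ)

/-- `m` and `n` are in the same block. -/
def sm (z : Z) (m n : ℕ) : Prop := z.1 m n = false ∧ z.1 n m = false

/-- The conditions on the index structure. -/
structure Z0 (K : Subring ℝ) (z : Z) : Prop where
  irr : ∀ m, z.1 m m = false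
  tr : ∀ m n k, z.1 m n = true → z.1 n k = true → z.1 m k = true
  wk : ∀ m n k, z.1 m k = true → z.1 m n = true ∨ z.1 n k = true
  inj : ∀ m n, sm z m n → z.2 m = z.2 n → m = n
  add : ∀ m n, sm z m n → ∃ k, sm z m k ∧ z.2 k = z.2 m + z.2 n
  smul : ∀ (s : ℝ) (_ : s ∈ K) (m : ℕ), ∃ k, sm z m k ∧ z.2 k = s * z.2 m
  nz : ∀ m, ∃ k, sm z m k ∧ z.2 k ≠ 0

variable {K : Subring ℝ} {z : Z}

theorem Z0.refl (h : Z0 K z) (m : ℕ) : sm z m m := ⟨h.irr m, h.irr m⟩

theorem sm.symm {m n : ℕ} (h : sm z m n) : sm z n m := ⟨h.2, h.1⟩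

theorem Z0.trans (h : Z0 K z) {m n k : ℕ} (h1 : sm z m n) (h2 : sm z n k) : sm z m k := by
  constructor
  · by_contra h3
    rw [Bool.not_eq_false] at h3
    rcases h.wk m n k h3 with h4 | h4
    · rw [h1.1] at h4
      exact Bool.false_ne_true h4
    · rw [h2.1] at h4
      exact Bool.false_ne_true h4
  · by_contra h3
    rw [Bool.not_eq_false] at h3
    rcases h.wk k n m h3 with h4 | h4
    · rw [h2.2] at h4
      exact Bool.false_ne_true h4
    · rw [h1.2] at h4
      exact Bool.false_ne_true h4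

theorem Z0.lt_of_sm_left (h : Z0 K z) {m n k : ℕ} (h1 : sm z m n) (h2 : z.1 n k = true) :
    z.1 m k = true := by
  rcases h.wk n m k h2 with h4 | h4
  · rw [h1.2] at h4
    exact absurd h4 Bool.false_ne_true
  · exact h4

theorem Z0.lt_of_sm_right (h : Z0 K z) {m n k : ℕ} (h1 : z.1 m n = true) (h2 : sm z n k) :
    z.1 m k = true := by
  rcases h.wk m k n h1 with h4 | h4
  · exact h4
  · rw [h2.2] at h4
    exact absurd h4 Bool.false_ne_true

theorem Z0.asymm (h : Z0 K z) {m n : ℕ} (h1 : z.1 m n = true) : z.1 n m = false := by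
  by_contra h3
  rw [Bool.not_eq_false] at h3
  have := h.tr m n m h1 h3
  rw [h.irr] at this
  exact Bool.false_ne_true this

theorem trich (m n : ℕ) : z.1 m n = true ∨ sm z m n ∨ z.1 n m = true := by
  unfold sm
  cases h1 : z.1 m n <;> cases h2 : z.1 n m <;> simp

/-- The zero of the block of `m`. -/
theorem Z0.zero (h : Z0 K z) (m : ℕ) : ∃ k, sm z m k ∧ z.2 k = 0 := by
  obtain ⟨k, h1, h2⟩ := h.smul 0 K.zero_mem m
  exact ⟨k, h1, by rw [h2, zero_mul]⟩

theorem Z0.neg (h : Z0 K z) (m : ℕ) : ∃ k, sm z m k ∧ z.2 k = - z.2 m := by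
  obtain ⟨k, h1, h2⟩ := h.smul (-1) (K.neg_mem K.one_mem) m
  exact ⟨k, h1, by rw [h2, neg_one_mul]⟩

section rep

variable {V : Type} [AddCommGroup V] [LinearOrder V] [IsOrderedAddMonoid V] [Module K V]

/-- `ι` represents the ordered module `V` as a lexicographic sum of the blocks of `z`. -/
structure Rep (z : Z) (ι : ℕ → V) : Prop where
  add : ∀ m n k, sm z m n → sm z m k → (ι m + ι n = ι k ↔ z.2 m + z.2 n = z.2 k)
  lt : ∀ m n, sm z m n → (ι m < ι n ↔ z.2 m < z.2 n)
  smul : ∀ m n, sm z m n → ∀ s : K, (s • ι m = ι n ↔ (s : ℝ) * z.2 m = z.2 n)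
  dom : ∀ m n, z.1 m n = true → ι m ≠ 0 →
    ArchimedeanClass.mk (ι m) < ArchimedeanClass.mk (ι n)
  span : ∀ v : V, ∃ l : List ℕ, (l.map ι).sum = v

variable {ι : ℕ → V}

theorem Rep.eq_zero (h : Rep (K := K) z ι) (hz : Z0 K z) {m : ℕ} : ι m = 0 ↔ z.2 m = 0 := by
  have h1 := h.add m m m (hz.refl m) (hz.refl m)
  constructor
  · intro h2
    have h3 := h1.1 (by rw [h2, add_zero])
    linarith
  · intro h2
    have h3 := h1.2 (by rw [h2, add_zero])
    simpa using h3

theorem Rep.pos (h : Rep (K := K) z ι) (hz : Z0 K z) {m : ℕ} : 0 < ι m ↔ 0 < z.2 m := by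
  obtain ⟨k, h1, h2⟩ := hz.zero m
  have h3 := (h.eq_zero hz).2 h2
  have h4 := h.lt k m h1.symm
  rw [h3, h2] at h4
  exact h4

theorem Rep.inj (h : Rep (K := K) z ι) (hz : Z0 K z) {m n : ℕ} (hs : sm z m n) :
    ι m = ι n ↔ m = n := by
  constructor
  · intro h1
    apply hz.inj m n hs
    have h2 := h.lt m n hs
    have h3 := h.lt n m hs.symm
    rw [h1] at h2 h3
    have h4 := mt h2.2 (lt_irrefl _)
    have h5 := mt h3.2 (lt_irrefl _)
    exact le_antisymm (not_lt.1 h5) (not_lt.1 h4)
  · rintro rfl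
    rfl

/-- Multiples inside a block. -/
theorem Rep.nsmul (h : Rep (K := K) z ι) (hz : Z0 K z) (m N : ℕ) :
    ∃ k, sm z m k ∧ z.2 k = N * z.2 m ∧ ι k = N • ι m := by
  induction N with
  | zero =>
    obtain ⟨k, h1, h2⟩ := hz.zero m
    exact ⟨k, h1, by simp [h2], by rw [(h.eq_zero hz).2 h2, zero_smul]⟩
  | succ N ih =>
    obtain ⟨k, h1, h2, h3⟩ := ih
    obtain ⟨j, h4, h5⟩ := hz.add k m h1.symm
    refine ⟨j, hz.trans h1 h4, ?_, ?_⟩
    · rw [h5, h2]
      push_cast
      ring
    · have h6 := (h.add k m j h1.symm h4).2 h5.symm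
      rw [← h6, h3, add_smul, one_smul]

theorem Rep.neg (h : Rep (K := K) z ι) (hz : Z0 K z) {m k : ℕ} (hs : sm z m k)
    (hk : z.2 k = - z.2 m) : ι k = - ι m := by
  obtain ⟨j, h1, h2⟩ := hz.zero m
  have h3 := (h.add m k j hs h1).2 (by rw [hk, h2, add_neg_cancel])
  rw [(h.eq_zero hz).2 h2] at h3
  exact (neg_eq_of_add_eq_zero_right h3).symm

/-- Nonzero elements of one block are archimedean equivalent. -/
theorem Rep.mk_le (h : Rep (K := K) z ι) (hz : Z0 K z) {m n : ℕ} (hs : sm z m n)
    (hm : ι m ≠ 0) : ArchimedeanClass.mk (ι m) ≤ ArchimedeanClass.mk (ι n) := by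
  -- replace the elements by their absolute values
  have key : ∀ m n, sm z m n → 0 < ι m → 0 < ι n →
      ArchimedeanClass.mk (ι m) ≤ ArchimedeanClass.mk (ι n) := by
    intro m n hs hm hn
    rw [ArchimedeanClass.mk_le_mk]
    obtain ⟨N, hN⟩ := exists_nat_gt (z.2 n / z.2 m)
    have hm' : 0 < z.2 m := (h.pos hz).1 hm
    rw [div_lt_iff₀ hm'] at hN
    obtain ⟨k, h1, h2, h3⟩ := h.nsmul hz m N
    refine ⟨N, ?_⟩
    rw [abs_of_pos hm, abs_of_pos hn, ← h3]
    exact ((h.lt n k (hz.trans hs.symm h1)).2 (by rw [h2]; exact hN)).le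
  have habs : ∀ m, ι m ≠ 0 → ∃ k, sm z m k ∧ 0 < ι k ∧
      ArchimedeanClass.mk (ι k) = ArchimedeanClass.mk (ι m) := by
    intro m hm
    rcases lt_or_gt_of_ne hm with h1 | h1
    · obtain ⟨k, h2, h3⟩ := hz.neg m
      have h4 := h.neg hz h2 h3
      refine ⟨k, h2, by rw [h4]; exact neg_pos.2 h1, by rw [h4, ArchimedeanClass.mk_neg]⟩
    · exact ⟨m, hz.refl m, h1, rfl⟩
  by_cases hn : ι n = 0
  · rw [hn, ArchimedeanClass.mk_zero]
    exact le_top
  · obtain ⟨k, h1, h2, h3⟩ := habs m hm
    obtain ⟨j, h4, h5, h6⟩ := habs n hn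
    rw [← h3, ← h6]
    exact key k j (hz.trans h1.symm (hz.trans hs h4)) h2 h5

theorem Rep.mk_eq (h : Rep (K := K) z ι) (hz : Z0 K z) {m n : ℕ} (hs : sm z m n)
    (hm : ι m ≠ 0) (hn : ι n ≠ 0) : ArchimedeanClass.mk (ι m) = ArchimedeanClass.mk (ι n) :=
  le_antisymm (h.mk_le hz hs hm) (h.mk_le hz hs.symm hn)

/-- The sum of a list of elements of one block. -/
theorem Rep.sum_block (h : Rep (K := K) z ι) (hz : Z0 K z) (m : ℕ) (l : List ℕ)
    (hl : ∀ i ∈ l, sm z m i) : ∃ k, sm z m k ∧ ι k = (l.map ι).sum := by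
  induction l with
  | nil =>
    obtain ⟨k, h1, h2⟩ := hz.zero m
    exact ⟨k, h1, by rw [(h.eq_zero hz).2 h2]; simp⟩
  | cons i l ih =>
    obtain ⟨k, h1, h2⟩ := ih fun j hj => hl j (List.mem_cons_of_mem _ hj)
    have h3 := hl i List.mem_cons_self
    have h4 := hz.trans h3.symm h1
    obtain ⟨j, h5, h6⟩ := hz.add i k h4
    refine ⟨j, hz.trans h3 h5, ?_⟩
    rw [← (h.add i k j h4 h5).2 h6.symm, h2]
    simp

theorem le_mk_sum (g : ArchimedeanClass V) (l : List V)
    (hl : ∀ v ∈ l, g < ArchimedeanClass.mk v) (hg : g ≠ ⊤) : g < ArchimedeanClass.mk l.sum := by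
  induction l with
  | nil =>
    rw [List.sum_nil, ArchimedeanClass.mk_zero]
    exact lt_top_iff_ne_top.2 hg
  | cons v l ih =>
    rw [List.sum_cons]
    have h1 := ih fun w hw => hl w (List.mem_cons_of_mem _ hw)
    have h2 := hl v List.mem_cons_self
    exact lt_of_lt_of_le (lt_min h2 h1) (ArchimedeanClass.min_le_mk_add _ _)

/-- Leading terms. -/
theorem Rep.lead (h : Rep (K := K) z ι) (hz : Z0 K z) (l : List ℕ)
    (hl : (l.map ι).sum ≠ 0) : ∃ k, ι k ≠ 0 ∧
      ArchimedeanClass.mk (ι k) < ArchimedeanClass.mk ((l.map ι).sum - ι k) := by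
  classical
  obtain ⟨N, hN⟩ : ∃ N, l.length ≤ N := ⟨_, le_rfl⟩
  induction N generalizing l with
  | zero =>
    rw [Nat.le_zero, List.length_eq_zero_iff] at hN
    subst hN
    simp at hl
  | succ N ih =>
    by_cases hne : l = []
    · subst hne
      simp at hl
    -- a minimal block
    obtain ⟨m, hm, hmin⟩ : ∃ m ∈ l, ∀ n ∈ l, z.1 n m = false := by
      clear ih hl hN
      induction l with
      | nil => exact absurd rfl hne
      | cons i l ih =>
        by_cases hl : l = []
        · subst hl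
          refine ⟨i, by simp, fun n hn => ?_⟩
          rw [List.mem_singleton] at hn
          rw [hn]
          exact hz.irr i
        · obtain ⟨m, hm, hmin⟩ := ih hl
          cases hc : z.1 i m
          · refine ⟨m, List.mem_cons_of_mem _ hm, fun n hn => ?_⟩
            rcases List.mem_cons.1 hn with rfl | hn
            · exact hc
            · exact hmin n hn
          · refine ⟨i, List.mem_cons_self, fun n hn => ?_⟩
            rcases List.mem_cons.1 hn with rfl | hn
            · exact hz.irr _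
            · by_contra h1
              rw [Bool.not_eq_false] at h1
              have := hz.tr n i m h1 hc
              rw [hmin n hn] at this
              exact Bool.false_ne_true this
    have hsplit : (l.map ι).sum = ((l.filter (fun i => sm z m i)).map ι).sum +
        ((l.filter (fun i => ¬ sm z m i)).map ι).sum := by
      clear ih hl hN hne hmin hm
      induction l with
      | nil => simp
      | cons i l ih =>
        by_cases hi : sm z m i
        · rw [List.filter_cons_of_pos (by simpa using hi), List.filter_cons_of_neg (by simpa using hi),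
            List.map_cons, List.map_cons, List.sum_cons, List.sum_cons, ih, add_assoc]
        · rw [List.filter_cons_of_neg (by simpa using hi), List.filter_cons_of_pos (by simpa using hi),
            List.map_cons, List.map_cons, List.sum_cons, List.sum_cons, ih]
          abel
    obtain ⟨k, hk1, hk2⟩ := h.sum_block hz m (l.filter (fun i => sm z m i)) (by
      intro i hi
      have := (List.mem_filter.1 hi).2
      simpa using this)
    by_cases hk : ι k = 0
    · rw [hsplit, ← hk2, hk, zero_add] at hl ⊢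
      refine ih _ hl ?_
      have h1 : (l.filter (fun i => ¬ sm z m i)).length < l.length := by
        refine List.length_filter_lt_length_iff_exists.2 ⟨m, hm, ?_⟩
        simpa using hz.refl m
      omega
    · refine ⟨k, hk, ?_⟩
      rw [hsplit, ← hk2, add_sub_cancel_left]
      refine le_mk_sum _ _ ?_ ?_
      · intro v hv
        obtain ⟨i, hi, rfl⟩ := List.mem_map.1 hv
        obtain ⟨hi1, hi2⟩ := List.mem_filter.1 hi
        have hi3 : ¬ sm z m i := by simpa using hi2
        have h4 : z.1 m i = true := by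
          rcases trich (z := z) m i with h5 | h5 | h5
          · exact h5
          · exact absurd h5 hi3
          · rw [hmin i hi1] at h5
            exact absurd h5 Bool.false_ne_true
        exact h.dom k i (hz.lt_of_sm_left hk1.symm h4) hk
      · rw [Ne, ArchimedeanClass.mk_eq_top_iff]
        exact hk

end rep

end Pool.Agent.TH783.OV
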