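import Mathlib

set_option autoImplicit false
set_option linter.unusedSectionVars false

/-! Valuation bases of countable ordered modules over subrings of the reals. -/

namespace Pool.Agent.TH783.OV

open Set

variable {K : Subring ℝ} {V : Type} [AddCommGroup V] [LinearOrder V] [IsOrderedAddMonoid V]
  [Module K V]

/-- Positive scalars preserve the order. -/
def PosS (K : Subring ℝ) (V : Type) [AddCommGroup V] [LinearOrder V] [Module K V] : Prop :=
  ∀ (s : K) (v : V), 0 < s → 0 < v → 0 < s • v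

theorem PosS.nonneg (hp : PosS K V) {s : K} {v : V} (hs : 0 ≤ s) (hv : 0 ≤ v) : 0 ≤ s • v := by
  rcases hs.eq_or_lt with rfl | hs
  · rw [zero_smul]
  rcases hv.eq_or_lt with rfl | hv
  · rw [smul_zero]
  · exact (hp s v hs hv).le

theorem PosS.mk_smul_le (hp : PosS K V) (s : K) (v : V) :
    ArchimedeanClass.mk v ≤ ArchimedeanClass.mk (s • v) := by
  have key : ∀ (s : K) (v : V), 0 ≤ s → 0 ≤ v →
      ArchimedeanClass.mk v ≤ ArchimedeanClass.mk (s • v) := by
    intro s v hs hv
    rw [ArchimedeanClass.mk_le_mk]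
    obtain ⟨N, hN⟩ := exists_nat_ge (s : ℝ)
    refine ⟨N, ?_⟩
    rw [abs_of_nonneg hv, abs_of_nonneg (hp.nonneg hs hv)]
    have h1 : (0 : K) ≤ (N : K) - s := by
      rw [sub_nonneg]
      have : (s : ℝ) ≤ ((N : K) : ℝ) := by push_cast; exact hN
      exact_mod_cast this
    have h2 := hp.nonneg h1 hv
    rw [sub_smul, sub_nonneg, Nat.cast_smul_eq_nsmul] at h2
    exact h2
  rcases le_total 0 s with hs | hs <;> rcases le_total 0 v with hv | hv
  · exact key s v hs hv
  · have := key s (-v) hs (neg_nonneg.2 hv)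
    rw [smul_neg, ArchimedeanClass.mk_neg, ArchimedeanClass.mk_neg] at this
    exact this
  · have := key (-s) v (neg_nonneg.2 hs) hv
    rw [neg_smul, ArchimedeanClass.mk_neg] at this
    exact this
  · have := key (-s) (-v) (neg_nonneg.2 hs) (neg_nonneg.2 hv)
    rw [neg_smul_neg, ArchimedeanClass.mk_neg] at this
    exact this

theorem PosS.mk_smul (hp : PosS K V) {s : K} (hs0 : s ≠ 0) (v : V) :
    ArchimedeanClass.mk (s • v) = ArchimedeanClass.mk v := by
  refine le_antisymm ?_ (hp.mk_smul_le s v)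
  have key : ∀ (s : K) (v : V), 0 < s → 0 ≤ v →
      ArchimedeanClass.mk (s • v) ≤ ArchimedeanClass.mk v := by
    intro s v hs hv
    rw [ArchimedeanClass.mk_le_mk]
    have hs' : (0 : ℝ) < s := by exact_mod_cast hs
    obtain ⟨N, hN⟩ := exists_nat_ge (1 / (s : ℝ))
    rw [div_le_iff₀ hs'] at hN
    refine ⟨N, ?_⟩
    rw [abs_of_nonneg hv, abs_of_nonneg (hp.nonneg hs.le hv)]
    have h1 : (0 : K) ≤ (N : K) * s - 1 := by
      rw [sub_nonneg]
      have : (1 : ℝ) ≤ (((N : K) * s : K) : ℝ) := by push_cast; exact hN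
      exact_mod_cast this
    have h2 := hp.nonneg h1 hv
    rw [sub_smul, sub_nonneg, one_smul, mul_smul, Nat.cast_smul_eq_nsmul] at h2
    exact h2
  have key2 : ∀ (s : K) (v : V), 0 < s →
      ArchimedeanClass.mk (s • v) ≤ ArchimedeanClass.mk v := by
    intro s v hs
    rcases le_total 0 v with hv | hv
    · exact key s v hs hv
    · have := key s (-v) hs (neg_nonneg.2 hv)
      rw [smul_neg, ArchimedeanClass.mk_neg, ArchimedeanClass.mk_neg] at this
      exact this
  rcases lt_or_gt_of_ne hs0 with hs | hs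
  · have := key2 (-s) v (neg_pos.2 hs)
    rw [neg_smul, ArchimedeanClass.mk_neg] at this
    exact this
  · exact key2 s v hs

theorem PosS.smul_eq_zero (hp : PosS K V) {s : K} (hs0 : s ≠ 0) {v : V} (h : s • v = 0) :
    v = 0 := by
  have h1 := hp.mk_smul hs0 v
  rw [h, ArchimedeanClass.mk_zero] at h1
  exact ArchimedeanClass.mk_eq_top_iff.1 h1.symm

/-- Valuation independence. -/
def VI (K : Subring ℝ) {V : Type} [AddCommGroup V] [LinearOrder V] [IsOrderedAddMonoid V]
    [Module K V] (S : Set V) : Prop :=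
  ∀ (t : Finset V) (c : V → K), ↑t ⊆ S → ∀ i ∈ t, c i ≠ 0 →
    ArchimedeanClass.mk (∑ j ∈ t, c j • j) ≤ ArchimedeanClass.mk i

theorem VI.mono {S T : Set V} (h : VI K T) (hST : S ⊆ T) : VI K S :=
  fun t c ht => h t c (ht.trans hST)

/-- The isolated hull of the span. -/
def U (K : Subring ℝ) {V : Type} [AddCommGroup V] [Module K V] (S : Set V) : Submodule K V where
  carrier := {v | ∃ s : K, s ≠ 0 ∧ s • v ∈ Submodule.span K S}
  zero_mem' := ⟨1, one_ne_zero, by rw [smul_zero]; exact Submodule.zero_mem _⟩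
  add_mem' := by
    rintro v w ⟨s, hs, h1⟩ ⟨t, ht, h2⟩
    refine ⟨s * t, mul_ne_zero hs ht, ?_⟩
    have : (s * t) • (v + w) = t • (s • v) + s • (t • w) := by
      rw [smul_smul, smul_smul, mul_comm t s, smul_add]
    rw [this]
    exact Submodule.add_mem _ (Submodule.smul_mem _ _ h1) (Submodule.smul_mem _ _ h2)
  smul_mem' := by
    rintro r v ⟨s, hs, h1⟩
    refine ⟨s, hs, ?_⟩
    rw [smul_comm]
    exact Submodule.smul_mem _ _ h1

theorem mem_U {S : Set V} {v : V} : v ∈ U K S ↔ ∃ s : K, s ≠ 0 ∧ s • v ∈ Submodule.span K S :=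
  Iff.rfl

theorem span_le_U {S : Set V} {v : V} (h : v ∈ Submodule.span K S) : v ∈ U K S :=
  ⟨1, one_ne_zero, by rw [one_smul]; exact h⟩

theorem U_mono {S T : Set V} (hST : S ⊆ T) {v : V} (h : v ∈ U K S) : v ∈ U K T := by
  obtain ⟨s, hs, h1⟩ := h
  exact ⟨s, hs, Submodule.span_mono hST h1⟩

theorem lt_mk_sum {g : ArchimedeanClass V} (hg : g ≠ ⊤) (t : Finset V) (f : V → V)
    (h : ∀ i ∈ t, g < ArchimedeanClass.mk (f i)) : g < ArchimedeanClass.mk (∑ i ∈ t, f i) := by
  classical
  induction t using Finset.induction_on with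
  | empty =>
    rw [Finset.sum_empty, ArchimedeanClass.mk_zero]
    exact lt_top_iff_ne_top.2 hg
  | insert i t hi ih =>
    rw [Finset.sum_insert hi]
    refine lt_of_lt_of_le (lt_min (h i (Finset.mem_insert_self _ _)) ?_)
      (ArchimedeanClass.min_le_mk_add _ _)
    exact ih fun j hj => h j (Finset.mem_insert_of_mem hj)

theorem VI.value (hp : PosS K V) {S : Set V} (h : VI K S) {v : V} (hv : v ∈ U K S) (hv0 : v ≠ 0) :
    ∃ i ∈ S, ArchimedeanClass.mk v = ArchimedeanClass.mk i := by
  obtain ⟨s, hs, h1⟩ := hv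
  rw [Submodule.mem_span_set] at h1
  obtain ⟨c, hc1, hc2⟩ := h1
  have hne : ArchimedeanClass.mk (s • v) ≠ ⊤ := by
    rw [hp.mk_smul hs, Ne, ArchimedeanClass.mk_eq_top_iff]
    exact hv0
  obtain ⟨i, hi1, hi2⟩ : ∃ i ∈ c.support, ArchimedeanClass.mk i ≤ ArchimedeanClass.mk (s • v) := by
    by_contra hcon
    push Not at hcon
    have h2 := lt_mk_sum hne c.support (fun i => c i • i)
      (fun i hi => lt_of_lt_of_le (hcon i hi) (hp.mk_smul_le _ _))
    rw [← hc2] at h2
    exact lt_irrefl _ h2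
  refine ⟨i, hc1 hi1, ?_⟩
  rw [← hp.mk_smul hs v]
  refine le_antisymm ?_ hi2
  rw [← hc2]
  exact h c.support c hc1 i hi1 (Finsupp.mem_support_iff.1 hi1)

theorem mk_eq_of_lt' {v w : V} (h : ArchimedeanClass.mk w < ArchimedeanClass.mk (v - w)) :
    ArchimedeanClass.mk v = ArchimedeanClass.mk w := by
  apply le_antisymm
  · by_contra hc
    rw [not_le] at hc
    have h1 := lt_of_lt_of_le (lt_min hc h) (ArchimedeanClass.min_le_mk_sub v (v - w))
    rw [sub_sub_cancel] at h1
    exact lt_irrefl _ h1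
  · have h1 := ArchimedeanClass.min_le_mk_add (v - w) w
    rw [sub_add_cancel, min_eq_right h.le] at h1
    exact h1

theorem best (hp : PosS K V) {S : Set V} (h : VI K S) (hf : S.Finite) (w : V) :
    ∃ u ∈ U K S, ∀ u' ∈ U K S, ArchimedeanClass.mk (w - u') ≤ ArchimedeanClass.mk (w - u) := by
  by_contra hcon
  push Not at hcon
  have hfin : (ArchimedeanClass.mk '' (U K S : Set V)).Finite := by
    refine ((hf.image ArchimedeanClass.mk).union (finite_singleton ⊤)).subset ?_
    rintro g ⟨v, hv, rfl⟩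
    by_cases hv0 : v = 0
    · right
      rw [hv0]
      exact ArchimedeanClass.mk_zero ..
    · obtain ⟨i, h1, h2⟩ := h.value hp hv hv0
      left
      exact ⟨i, h1, h2.symm⟩
  set T : Set (ArchimedeanClass V) := {g | ∃ u ∈ U K S, g = ArchimedeanClass.mk (w - u)} with hT
  have hTsub : T ⊆ ArchimedeanClass.mk '' (U K S : Set V) := by
    rintro g ⟨u, hu, rfl⟩
    obtain ⟨u', hu', hlt⟩ := hcon u hu
    refine ⟨u' - u, Submodule.sub_mem _ hu' hu, ?_⟩
    have h1 : ArchimedeanClass.mk (u' - u) < ArchimedeanClass.mk ((w - u) - (u' - u)) ∨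
        ¬ ArchimedeanClass.mk (u' - u) < ArchimedeanClass.mk ((w - u) - (u' - u)) := em _
    have h2 : (w - u) - (u' - u) = w - u' := by abel
    rcases h1 with h1 | h1
    · exact (mk_eq_of_lt' h1).symm
    · rw [h2, not_lt] at h1
      exfalso
      have h3 := lt_of_lt_of_le (lt_of_lt_of_le hlt h1) le_rfl
      have h4 := ArchimedeanClass.min_le_mk_add (w - u') (u' - u)
      have h5 : w - u' + (u' - u) = w - u := by abel
      rw [h5, min_eq_left h1] at h4
      exact absurd hlt h4.not_gt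
  obtain ⟨g, hg1, hg2⟩ := (hfin.subset hTsub).exists_maximalFor id T
    ⟨_, 0, Submodule.zero_mem _, rfl⟩
  obtain ⟨u, hu, rfl⟩ := hg1
  obtain ⟨u', hu', hlt⟩ := hcon u hu
  exact absurd hlt (hg2 ⟨u', hu', rfl⟩ hlt.le).not_gt

/-- Divisibility. -/
def DivS (K : Subring ℝ) (V : Type) [AddCommGroup V] [Module K V] : Prop :=
  ∀ (s : K) (v : V), s ≠ 0 → ∃ w : V, s • w = v

theorem ext_step (hp : PosS K V) (hd : DivS K V) {S : Set V} (h : VI K S) (hf : S.Finite) (w : V) :
    ∃ S' : Set V, S ⊆ S' ∧ S'.Finite ∧ VI K S' ∧ w ∈ U K S' := by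
  classical
  by_cases hw : w ∈ U K S
  · exact ⟨S, Subset.rfl, hf, h, hw⟩
  obtain ⟨u, hu, hbest⟩ := best hp h hf w
  set b := w - u with hb
  have hbS : b ∉ S := by
    intro hbS
    apply hw
    have : w = u + b := by rw [hb]; abel
    rw [this]
    exact Submodule.add_mem _ hu (span_le_U (Submodule.subset_span hbS))
  refine ⟨insert b S, subset_insert _ _, hf.insert _, ?_, ?_⟩
  · intro t c ht i hi hci
    by_cases hcase : b ∈ t ∧ c b ≠ 0
    · obtain ⟨hbt, hcb⟩ := hcase
      rw [← Finset.add_sum_erase _ _ hbt]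
      have hsub : ((t.erase b : Finset V) : Set V) ⊆ S := by
        intro x hx
        have h1 : x ∈ t.erase b := hx
        rcases ht (Finset.mem_of_mem_erase h1) with h2 | h2
        · exact absurd h2 (Finset.ne_of_mem_erase h1)
        · exact h2
      set y := ∑ j ∈ t.erase b, c j • j with hy
      obtain ⟨u', hu'⟩ := hd (c b) (-y) hcb
      have hymem : y ∈ Submodule.span K S :=
        Submodule.sum_mem _ fun j hj => Submodule.smul_mem _ _ (Submodule.subset_span (hsub hj))
      have hu'U : u' ∈ U K S := ⟨c b, hcb, by rw [hu']; exact Submodule.neg_mem _ hymem⟩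
      have h1 : c b • b + y = c b • (b - u') := by
        rw [smul_sub (c b) b u', hu', sub_neg_eq_add]
      rw [h1, hp.mk_smul hcb]
      have h2 : ArchimedeanClass.mk (b - u') ≤ ArchimedeanClass.mk b := by
        have h3 := hbest (u + u') (Submodule.add_mem _ hu hu'U)
        have h4 : w - (u + u') = b - u' := by rw [hb]; abel
        rw [h4] at h3
        exact h3
      by_cases hib : i = b
      · rw [hib]
        exact h2
      · have h5 : ArchimedeanClass.mk u' ≤ ArchimedeanClass.mk i := by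
          rw [← hp.mk_smul hcb u', hu', ArchimedeanClass.mk_neg]
          exact h (t.erase b) c hsub i (Finset.mem_erase.2 ⟨hib, hi⟩) hci
        by_contra hcon
        rw [not_le] at hcon
        have h6 := mk_eq_of_lt' (lt_of_le_of_lt h5 hcon)
        rw [h6] at h2
        exact absurd (lt_of_le_of_lt h5 hcon) h2.not_gt
    · have h1 : ∑ j ∈ t, c j • j = ∑ j ∈ t.erase b, c j • j := by
        by_cases hbt : b ∈ t
        · have hcb : c b = 0 := by
            by_contra h2
            exact hcase ⟨hbt, h2⟩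
          rw [← Finset.add_sum_erase _ _ hbt, hcb, zero_smul, zero_add]
        · rw [Finset.erase_eq_of_notMem hbt]
      rw [h1]
      have hib : i ≠ b := by
        rintro rfl
        exact hcase ⟨hi, hci⟩
      refine h (t.erase b) c ?_ i (Finset.mem_erase.2 ⟨hib, hi⟩) hci
      intro x hx
      have h1 : x ∈ t.erase b := hx
      rcases ht (Finset.mem_of_mem_erase h1) with h2 | h2
      · exact absurd h2 (Finset.ne_of_mem_erase h1)
      · exact h2
  · have : w = u + b := by rw [hb]; abel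
    rw [this]
    exact Submodule.add_mem _ (U_mono (subset_insert _ _) hu)
      (span_le_U (Submodule.subset_span (mem_insert _ _)))

/-- A module is a lexicographic sum of archimedean submodules. -/
def LexSum (K : Subring ℝ) (V : Type) [AddCommGroup V] [LinearOrder V] [IsOrderedAddMonoid V]
    [Module K V] : Prop :=
  ∃ A : ArchimedeanClass V → Submodule K V,
    (∀ γ, ∀ v ∈ A γ, v ≠ 0 → ArchimedeanClass.mk v = γ) ∧ ⨆ γ, A γ = ⊤

/-- Countable divisible ordered modules are lexicographic sums. -/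
theorem lexSum_of_div [Countable V] (hp : PosS K V) (hd : DivS K V) : LexSum K V := by
  classical
  obtain ⟨e, he⟩ := exists_surjective_nat V
  let St := {S : Set V // S.Finite ∧ VI K S}
  have step : ∀ (n : ℕ) (S : St), ∃ S' : St, S.1 ⊆ S'.1 ∧ e n ∈ U K S'.1 := by
    intro n S
    obtain ⟨S', h1, h2, h3, h4⟩ := ext_step hp hd S.2.2 S.2.1 (e n)
    exact ⟨⟨S', h2, h3⟩, h1, h4⟩
  choose nx hnx1 hnx2 using step
  obtain ⟨s, hss⟩ : ∃ s : ℕ → St, ∀ n, s (n + 1) = nx n (s n) :=
    ⟨fun n => Nat.rec ⟨∅, finite_empty, by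
      intro t c ht i hi
      exact absurd (ht hi) (notMem_empty _)⟩ (fun n q => nx n q) n, fun _ => rfl⟩
  have hmono : Monotone (fun n => (s n).1) := by
    apply monotone_nat_of_le_succ
    intro n
    rw [hss]
    exact hnx1 n (s n)
  set S : Set V := ⋃ n, (s n).1 with hS
  have hVI : VI K S := by
    intro t c ht i hi hci
    have h1 : ∀ j : V, ∃ n, j ∈ t → j ∈ (s n).1 := by
      intro j
      by_cases hj : j ∈ t
      · obtain ⟨n, hn⟩ := mem_iUnion.1 (ht hj)
        exact ⟨n, fun _ => hn⟩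
      · exact ⟨0, fun h => absurd h hj⟩
    choose n hn using h1
    refine (s (t.sup n)).2.2 t c ?_ i hi hci
    intro j hj
    exact hmono (Finset.le_sup (f := n) hj) (hn j hj)
  have hU : ∀ v, v ∈ U K S := by
    intro v
    obtain ⟨n, rfl⟩ := he v
    refine U_mono (subset_iUnion _ (n + 1)) ?_
    rw [hss]
    exact hnx2 n (s n)
  refine ⟨fun γ => U K {b | b ∈ S ∧ ArchimedeanClass.mk b = γ}, ?_, ?_⟩
  · intro γ v hv hv0
    obtain ⟨i, hi, h1⟩ := (hVI.mono (fun b hb => hb.1)).value hp hv hv0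
    rw [h1, hi.2]
  · rw [eq_top_iff]
    rintro v -
    obtain ⟨r, hr, h1⟩ := hU v
    rw [Submodule.mem_span_set] at h1
    obtain ⟨c, hc1, hc2⟩ := h1
    choose u hu using fun i : V => hd r (c i • i) hr
    have h2 : v = ∑ i ∈ c.support, u i := by
      have h3 : r • (v - ∑ i ∈ c.support, u i) = 0 := by
        rw [smul_sub, Finset.smul_sum, ← hc2, Finsupp.sum, sub_eq_zero]
        exact Finset.sum_congr rfl fun i _ => (hu i).symm
      exact sub_eq_zero.1 (hp.smul_eq_zero hr h3)
    rw [h2]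
    refine Submodule.sum_mem _ fun i hi => ?_
    refine Submodule.mem_iSup_of_mem (ArchimedeanClass.mk i) ?_
    refine ⟨r, hr, ?_⟩
    rw [hu]
    exact Submodule.smul_mem _ _ (Submodule.subset_span ⟨hc1 hi, rfl⟩)

end Pool.Agent.TH783.OV
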