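import Pool.Agent.TH783.OV.Alg

set_option autoImplicit false

/-! Isomorphisms of lexicographic sums and of their index structures. -/

namespace Pool.Agent.TH783.OV

open Set

variable {K : Subring ℝ} {z z' : Z}

/-- Isomorphisms of the index structures. -/
structure ZIso (K : Subring ℝ) (z z' : Z) (σ : Equiv.Perm ℕ) : Prop where
  ord : ∀ m n, z'.1 (σ m) (σ n) = z.1 m n
  add : ∀ m n k, sm z m n → sm z m k →
    (z'.2 (σ m) + z'.2 (σ n) = z'.2 (σ k) ↔ z.2 m + z.2 n = z.2 k)
  lt : ∀ m n, sm z m n → (z'.2 (σ m) < z'.2 (σ n) ↔ z.2 m < z.2 n)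
  smul : ∀ m n, sm z m n → ∀ s : K,
    ((s : ℝ) * z'.2 (σ m) = z'.2 (σ n) ↔ (s : ℝ) * z.2 m = z.2 n)

theorem ZIso.sm {σ : Equiv.Perm ℕ} (h : ZIso K z z' σ) (m n : ℕ) :
    sm z' (σ m) (σ n) ↔ sm z m n := by
  unfold OV.sm
  rw [h.ord, h.ord]

section two

variable {V V' : Type} [AddCommGroup V] [LinearOrder V] [IsOrderedAddMonoid V] [Module K V]
  [AddCommGroup V'] [LinearOrder V'] [IsOrderedAddMonoid V'] [Module K V']

theorem pos_of_lead {a b : V} (h : ArchimedeanClass.mk a < ArchimedeanClass.mk (b - a)) :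
    (0 < b ↔ 0 < a) ∧ (b = 0 ↔ a = 0) := by
  have ha : a ≠ 0 := by
    rintro rfl
    rw [ArchimedeanClass.mk_zero] at h
    exact not_top_lt h
  have h1 : 0 < a → 0 < b := fun h2 => ArchimedeanClass.pos_of_pos_of_mk_lt h2 h
  have h2 : a < 0 → b < 0 := by
    intro h3
    have h4 : ArchimedeanClass.mk (-a) < ArchimedeanClass.mk (-b - -a) := by
      have : -b - -a = -(b - a) := by abel
      rw [this, ArchimedeanClass.mk_neg, ArchimedeanClass.mk_neg]
      exact h
    have h5 := ArchimedeanClass.pos_of_pos_of_mk_lt (neg_pos.2 h3) h4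
    exact neg_pos.1 h5
  rcases lt_or_gt_of_ne ha with h3 | h3
  · exact ⟨⟨fun h4 => absurd (h2 h3) (not_lt.2 h4.le), fun h4 => absurd h3 (not_lt.2 h4.le)⟩,
      ⟨fun h4 => absurd h4 (h2 h3).ne, fun h4 => absurd h4 ha⟩⟩
  · exact ⟨⟨fun _ => h3, h1⟩, ⟨fun h4 => absurd h4 (h1 h3).ne', fun h4 => absurd h4 ha⟩⟩

section ext

variable {ι : ℕ → V} {ι' : ℕ → V'} {σ : Equiv.Perm ℕ}

theorem sum_block2 (h : Rep (K := K) z ι) (hz : Z0 K z) (h' : Rep (K := K) z' ι')
    (hz' : Z0 K z') (hσ : ZIso K z z' σ) (m : ℕ) (l : List ℕ) (hl : ∀ i ∈ l, sm z m i) :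
    ∃ k, sm z m k ∧ ι k = (l.map ι).sum ∧ ι' (σ k) = (l.map (fun i => ι' (σ i))).sum := by
  induction l with
  | nil =>
    obtain ⟨k, h1, h2⟩ := hz.zero m
    refine ⟨k, h1, by rw [(h.eq_zero hz).2 h2]; simp, ?_⟩
    have h3 := (hσ.smul m k h1 0).2 (by rw [h2]; simp)
    have h4 : z'.2 (σ k) = 0 := by rw [← h3]; simp
    rw [(h'.eq_zero hz').2 h4]
    simp
  | cons i l ih =>
    obtain ⟨k, h1, h2, h2'⟩ := ih fun j hj => hl j (List.mem_cons_of_mem _ hj)
    have h3 := hl i List.mem_cons_self
    have h4 := hz.trans h3.symm h1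
    obtain ⟨j, h5, h6⟩ := hz.add i k h4
    refine ⟨j, hz.trans h3 h5, ?_, ?_⟩
    · rw [← (h.add i k j h4 h5).2 h6.symm, h2]
      simp
    · have h7 := (hσ.add i k j h4 h5).2 h6.symm
      rw [← (h'.add _ _ _ ((hσ.sm _ _).2 h4) ((hσ.sm _ _).2 h5)).2 h7, h2']
      simp

theorem lead2 (h : Rep (K := K) z ι) (hz : Z0 K z) (h' : Rep (K := K) z' ι')
    (hz' : Z0 K z') (hσ : ZIso K z z' σ) (l : List ℕ) :
    ((l.map ι).sum = 0 ∧ (l.map (fun i => ι' (σ i))).sum = 0) ∨ ∃ k,
      ArchimedeanClass.mk (ι k) < ArchimedeanClass.mk ((l.map ι).sum - ι k) ∧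
      ArchimedeanClass.mk (ι' (σ k)) <
        ArchimedeanClass.mk ((l.map (fun i => ι' (σ i))).sum - ι' (σ k)) := by
  classical
  obtain ⟨N, hN⟩ : ∃ N, l.length ≤ N := ⟨_, le_rfl⟩
  induction N generalizing l with
  | zero =>
    rw [Nat.le_zero, List.length_eq_zero_iff] at hN
    subst hN
    left
    simp
  | succ N ih =>
    by_cases hne : l = []
    · subst hne
      left
      simp
    obtain ⟨m, hm, hmin⟩ : ∃ m ∈ l, ∀ n ∈ l, z.1 n m = false := by
      clear ih hN
      induction l with
      | nil => exact absurd rfl hne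
      | cons i l ih =>
        by_cases hl : l = []
        · subst hl
          refine ⟨i, by simp, fun n hn => ?_⟩
          rw [List.mem_singleton] at hn
          rw [hn]
          exact hz.irr i
        · obtain ⟨m, hm, hmin⟩ := ih hl
          cases hc : z.1 i m
          · refine ⟨m, List.mem_cons_of_mem _ hm, fun n hn => ?_⟩
            rcases List.mem_cons.1 hn with rfl | hn
            · exact hc
            · exact hmin n hn
          · refine ⟨i, List.mem_cons_self, fun n hn => ?_⟩
            rcases List.mem_cons.1 hn with rfl | hn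
            · exact hz.irr _
            · by_contra h1
              rw [Bool.not_eq_false] at h1
              have := hz.tr n i m h1 hc
              rw [hmin n hn] at this
              exact Bool.false_ne_true this
    have hsplit : ∀ (W : Type) (_ : AddCommGroup W) (f : ℕ → W), (l.map f).sum =
        ((l.filter (fun i => sm z m i)).map f).sum +
        ((l.filter (fun i => ¬ sm z m i)).map f).sum := by
      intro W _ f
      clear ih hN hne hmin hm
      induction l with
      | nil => simp
      | cons i l ih =>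
        by_cases hi : sm z m i
        · rw [List.filter_cons_of_pos (by simpa using hi), List.filter_cons_of_neg (by simpa using hi),
            List.map_cons, List.map_cons, List.sum_cons, List.sum_cons, ih, add_assoc]
        · rw [List.filter_cons_of_neg (by simpa using hi), List.filter_cons_of_pos (by simpa using hi),
            List.map_cons, List.map_cons, List.sum_cons, List.sum_cons, ih]
          abel
    obtain ⟨k, hk1, hk2, hk3⟩ := sum_block2 h hz h' hz' hσ m (l.filter (fun i => sm z m i)) (by
      intro i hi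
      have := (List.mem_filter.1 hi).2
      simpa using this)
    have hkz : ι k = 0 ↔ ι' (σ k) = 0 := by
      rw [h.eq_zero hz, h'.eq_zero hz']
      have h1 := hσ.add k k k (hz.refl k) (hz.refl k)
      constructor
      · intro h2
        have := h1.2 (by rw [h2, add_zero])
        linarith
      · intro h2
        have := h1.1 (by rw [h2, add_zero])
        linarith
    by_cases hk : ι k = 0
    · have hk' := hkz.1 hk
      rw [hsplit V _ ι, hsplit V' _ (fun i => ι' (σ i)), ← hk2, ← hk3, hk, hk', zero_add, zero_add]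
      refine ih _ ?_
      have h1 : (l.filter (fun i => ¬ sm z m i)).length < l.length := by
        refine List.length_filter_lt_length_iff_exists.2 ⟨m, hm, ?_⟩
        simpa using hz.refl m
      omega
    · right
      have hk' : ι' (σ k) ≠ 0 := fun h1 => hk (hkz.2 h1)
      have hrest : ∀ i ∈ l.filter (fun i => ¬ sm z m i), z.1 k i = true := by
        intro i hi
        obtain ⟨hi1, hi2⟩ := List.mem_filter.1 hi
        have hi3 : ¬ sm z m i := by simpa using hi2
        have h4 : z.1 m i = true := by
          rcases trich (z := z) m i with h5 | h5 | h5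
          · exact h5
          · exact absurd h5 hi3
          · rw [hmin i hi1] at h5
            exact absurd h5 Bool.false_ne_true
        exact hz.lt_of_sm_left hk1.symm h4
      refine ⟨k, ?_, ?_⟩
      · rw [hsplit V _ ι, ← hk2, add_sub_cancel_left]
        refine le_mk_sum _ _ ?_ ?_
        · intro v hv
          obtain ⟨i, hi, rfl⟩ := List.mem_map.1 hv
          exact h.dom k i (hrest i hi) hk
        · rw [Ne, ArchimedeanClass.mk_eq_top_iff]
          exact hk
      · rw [hsplit V' _ (fun i => ι' (σ i)), ← hk3, add_sub_cancel_left]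
        refine le_mk_sum _ _ ?_ ?_
        · intro v hv
          obtain ⟨i, hi, rfl⟩ := List.mem_map.1 hv
          exact h'.dom _ _ (by rw [hσ.ord]; exact hrest i hi) hk'
        · rw [Ne, ArchimedeanClass.mk_eq_top_iff]
          exact hk'

theorem sign2 (h : Rep (K := K) z ι) (hz : Z0 K z) (h' : Rep (K := K) z' ι')
    (hz' : Z0 K z') (hσ : ZIso K z z' σ) (l : List ℕ) :
    (0 < (l.map ι).sum ↔ 0 < (l.map (fun i => ι' (σ i))).sum) ∧
    ((l.map ι).sum = 0 ↔ (l.map (fun i => ι' (σ i))).sum = 0) := by
  rcases lead2 h hz h' hz' hσ l with ⟨h1, h2⟩ | ⟨k, h1, h2⟩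
  · rw [h1, h2]
    exact ⟨⟨fun h => absurd h (lt_irrefl _), fun h => absurd h (lt_irrefl _)⟩,
      ⟨fun _ => rfl, fun _ => rfl⟩⟩
  · obtain ⟨h3, h4⟩ := pos_of_lead h1
    obtain ⟨h5, h6⟩ := pos_of_lead h2
    rw [h3, h4, h5, h6]
    refine ⟨?_, ?_⟩
    · rw [h.pos hz, h'.pos hz']
      obtain ⟨j, h7, h8⟩ := hz.zero k
      have h9 := hσ.lt j k h7.symm
      have h10 := (hσ.smul k j h7 0).2 (by rw [h8]; simp)
      have h11 : z'.2 (σ j) = 0 := by rw [← h10]; simp
      rw [h11, h8] at h9
      exact h9.symm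
    · rw [h.eq_zero hz, h'.eq_zero hz']
      have h7 := hσ.add k k k (hz.refl k) (hz.refl k)
      constructor
      · intro h2
        have := h7.2 (by rw [h2, add_zero])
        linarith
      · intro h2
        have := h7.1 (by rw [h2, add_zero])
        linarith

/-- Isomorphisms of the index structures extend. -/
theorem extend (h : Rep (K := K) z ι) (hz : Z0 K z) (h' : Rep (K := K) z' ι')
    (hz' : Z0 K z') (hσ : ZIso K z z' σ) : ∃ θ : V ≃ V', (∀ v w, θ (v + w) = θ v + θ w) ∧
      (∀ v w, θ v < θ w ↔ v < w) ∧ ∀ (s : K) (v : V), θ (s • v) = s • θ v := by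
  classical
  choose ng hng1 hng2 using fun m => hz.neg m
  have hngι : ∀ m, ι (ng m) = - ι m := fun m => h.neg hz (hng1 m) (hng2 m)
  have hngι' : ∀ m, ι' (σ (ng m)) = - ι' (σ m) := by
    intro m
    refine h'.neg hz' ((hσ.sm _ _).2 (hng1 m)) ?_
    have h1 := (hσ.smul m (ng m) (hng1 m) (-1)).2 (by rw [hng2]; simp)
    rw [← h1]
    simp
  -- comparison
  have cmp : ∀ l l' : List ℕ,
      ((l.map ι).sum < (l'.map ι).sum ↔
        (l.map (fun i => ι' (σ i))).sum < (l'.map (fun i => ι' (σ i))).sum) ∧
      ((l.map ι).sum = (l'.map ι).sum ↔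
        (l.map (fun i => ι' (σ i))).sum = (l'.map (fun i => ι' (σ i))).sum) := by
    intro l l'
    have h1 : ((l' ++ l.map ng).map ι).sum = (l'.map ι).sum - (l.map ι).sum := by
      rw [List.map_append, List.sum_append, List.map_map, sub_eq_add_neg]
      congr 1
      induction l with
      | nil => simp
      | cons i l ih =>
        rw [List.map_cons, List.map_cons, List.sum_cons, List.sum_cons, ih, neg_add]
        congr 1
        exact hngι i
    have h2 : ((l' ++ l.map ng).map (fun i => ι' (σ i))).sum =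
        (l'.map (fun i => ι' (σ i))).sum - (l.map (fun i => ι' (σ i))).sum := by
      rw [List.map_append, List.sum_append, List.map_map, sub_eq_add_neg]
      congr 1
      clear h1
      induction l with
      | nil => simp
      | cons i l ih =>
        rw [List.map_cons, List.map_cons, List.sum_cons, List.sum_cons, ih, neg_add]
        congr 1
        exact hngι' i
    obtain ⟨h3, h4⟩ := sign2 h hz h' hz' hσ (l' ++ l.map ng)
    rw [h1, h2] at h3 h4
    rw [sub_pos, sub_pos] at h3
    rw [sub_eq_zero, sub_eq_zero] at h4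
    exact ⟨h3, ⟨fun h5 => (h4.1 h5.symm).symm, fun h5 => (h4.2 h5.symm).symm⟩⟩
  choose L hL using h.span
  let f : V → V' := fun v => ((L v).map (fun i => ι' (σ i))).sum
  have hf : ∀ l : List ℕ, f (l.map ι).sum = (l.map (fun i => ι' (σ i))).sum := by
    intro l
    exact (cmp _ _).2.1 (hL _)
  have hlt : ∀ v w, f v < f w ↔ v < w := by
    intro v w
    rw [← hL v, ← hL w, hf, hf]
    exact (cmp _ _).1.symm
  have hbij : Function.Bijective f := by
    constructor
    · intro v w hvw
      rcases lt_trichotomy v w with h1 | h1 | h1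
      · exact absurd hvw ((hlt _ _).2 h1).ne
      · exact h1
      · exact absurd hvw ((hlt _ _).2 h1).ne'
    · intro v'
      obtain ⟨l, hl⟩ := h'.span v'
      refine ⟨((l.map σ.symm).map ι).sum, ?_⟩
      rw [hf, ← hl, List.map_map]
      congr 1
      refine List.map_congr_left fun i _ => ?_
      simp
  refine ⟨Equiv.ofBijective f hbij, ?_, hlt, ?_⟩
  · intro v w
    show f (v + w) = f v + f w
    have h1 : v + w = ((L v ++ L w).map ι).sum := by
      rw [List.map_append, List.sum_append, hL, hL]
    rw [h1, hf, List.map_append, List.sum_append]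
  · intro s v
    show f (s • v) = s • f v
    choose sc hsc1 hsc2 using fun m => hz.smul s s.2 m
    have h1 : ∀ l : List ℕ, s • (l.map ι).sum = ((l.map sc).map ι).sum := by
      intro l
      rw [List.smul_sum, List.map_map, List.map_map]
      congr 1
      refine List.map_congr_left fun i _ => ?_
      exact (h.smul i (sc i) (hsc1 i) s).2 (hsc2 i).symm
    have h2 : ∀ l : List ℕ, s • (l.map (fun i => ι' (σ i))).sum =
        ((l.map sc).map (fun i => ι' (σ i))).sum := by
      intro l
      rw [List.smul_sum, List.map_map, List.map_map]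
      congr 1
      refine List.map_congr_left fun i _ => ?_
      exact (h'.smul _ _ ((hσ.sm _ _).2 (hsc1 i)) s).2 ((hσ.smul i (sc i) (hsc1 i) s).2
        (hsc2 i).symm)
    conv_lhs => rw [← hL v, h1, hf]
    show _ = s • ((L v).map (fun i => ι' (σ i))).sum
    rw [h2]

end ext

end two

end Pool.Agent.TH783.OV
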