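import Pool.Agent.TH783.TR.Transfer
import Pool.Agent.TH783.OV.Skel

set_option autoImplicit false
set_option linter.unusedSectionVars false

/-! Relational coding of the index structures. -/

namespace Pool.Agent.TH783.OV

open Set MeasureTheory
open Pool.Agent.H533R2.VO (RS RIso Dich VC lift OS Ic BlkV)
open Pool.Agent.H899R2.VP (St Adj PIso BF IsoOn BF_iff labels zipSet)
open Pool.Agent.TH783.TR

/-- Arities: the order, the graph of addition and the graphs of the scalars. -/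
def ar : ℕ → ℕ
  | 0 => 2
  | 1 => 3
  | (_ + 2) => 2

/-- Abstract relations. -/
abbrev PR (K : Subring ℝ) : Type := (ℕ → ℕ → Prop) × (ℕ → ℕ → ℕ → Prop) × (K → ℕ → ℕ → Prop)

variable {K : Subring ℝ}

open Classical in
/-- The relational structure of given relations. -/
noncomputable def mkRS (k : ℕ → K) (P : PR K) : RS ar
  | 0 => fun t : Fin 2 → ℕ => decide (P.1 (t 0) (t 1))
  | 1 => fun t : Fin 3 → ℕ => decide (P.2.1 (t 0) (t 1) (t 2))
  | (j + 2) => fun t : Fin 2 → ℕ => decide (P.2.2 (k j) (t 0) (t 1))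

theorem mkRS_iff {k : ℕ → K} (hk : Function.Surjective k) {P P' : PR K} (f : ℕ → ℕ) :
    (∀ (i : ℕ) (v : Fin (ar i) → ℕ), mkRS k P' i (f ∘ v) = mkRS k P i v) ↔
    (∀ m n, P'.1 (f m) (f n) ↔ P.1 m n) ∧ (∀ m n l, P'.2.1 (f m) (f n) (f l) ↔ P.2.1 m n l) ∧
    ∀ s m n, P'.2.2 s (f m) (f n) ↔ P.2.2 s m n := by
  constructor
  · intro h
    refine ⟨?_, ?_, ?_⟩
    · intro m n
      have := h 0 ![m, n]
      simp only [mkRS, decide_eq_decide] at this
      exact this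
    · intro m n l
      have := h 1 ![m, n, l]
      simp only [mkRS, decide_eq_decide] at this
      exact this
    · intro s m n
      obtain ⟨j, rfl⟩ := hk s
      have := h (j + 2) ![m, n]
      simp only [mkRS, decide_eq_decide] at this
      exact this
  · rintro ⟨h1, h2, h3⟩ i v
    match i, v with
    | 0, v =>
      simp only [mkRS, decide_eq_decide]
      exact h1 _ _
    | 1, v =>
      simp only [mkRS, decide_eq_decide]
      exact h2 _ _ _
    | j + 2, v =>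
      simp only [mkRS, decide_eq_decide]
      exact h3 _ _ _

theorem mkRS_inj {k : ℕ → K} (hk : Function.Surjective k) {P P' : PR K}
    (h : mkRS k P = mkRS k P') : P = P' := by
  have h1 := (mkRS_iff hk (P := P') (P' := P) id).1 (fun i v => by rw [h]; rfl)
  obtain ⟨h1, h2, h3⟩ := h1
  refine Prod.ext ?_ (Prod.ext ?_ ?_)
  · funext m n
    exact propext (h1 m n)
  · funext m n l
    exact propext (h2 m n l)
  · funext s m n
    exact propext (h3 s m n)

/-- The relations of an index structure. -/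
def PZ (K : Subring ℝ) (z : Z) : PR K :=
  (fun m n => sm z m n ∧ z.2 m < z.2 n, fun m n k => sm z m n ∧ sm z m k ∧ z.2 m + z.2 n = z.2 k,
    fun s m n => sm z m n ∧ (s : ℝ) * z.2 m = z.2 n)

/-- The code of an index structure. -/
noncomputable def Ph (k : ℕ → K) (z : Z) : St ar := (z.1, mkRS k (PZ K z))

/-- Isomorphism of structures. -/
def SI {a : ℕ → ℕ} (M N : St a) : Prop := ∃ σ : Equiv.Perm ℕ,
  (∀ x y, N.1 (σ x) (σ y) = M.1 x y) ∧
  ∀ (i : ℕ) (v : Fin (a i) → ℕ), N.2 i (⇑σ ∘ v) = M.2 i v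

theorem SI.symm {a : ℕ → ℕ} {M N : St a} (h : SI M N) : SI N M := by
  obtain ⟨σ, h1, h2⟩ := h
  refine ⟨σ⁻¹, fun x y => ?_, fun i v => ?_⟩
  · rw [← h1]
    simp
  · rw [← h2]
    have h3 : ⇑σ ∘ ⇑σ⁻¹ ∘ v = v := by
      funext k
      simp
    rw [h3]

theorem SI.trans {a : ℕ → ℕ} {M N L : St a} (h : SI M N) (h' : SI N L) : SI M L := by
  obtain ⟨σ, h1, h2⟩ := h
  obtain ⟨τ, h3, h4⟩ := h'
  refine ⟨τ * σ, fun x y => ?_, fun i v => ?_⟩
  · rw [← h1, ← h3]
    rfl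
  · rw [← h2, ← h4]
    rfl

theorem Ph_iso {k : ℕ → K} (hk : Function.Surjective k) {z z' : Z} (σ : Equiv.Perm ℕ) :
    ((∀ x y, (Ph k z').1 (σ x) (σ y) = (Ph k z).1 x y) ∧
    ∀ (i : ℕ) (v : Fin (ar i) → ℕ), (Ph k z').2 i (⇑σ ∘ v) = (Ph k z).2 i v) ↔
    ZIso K z z' σ := by
  have h := mkRS_iff hk (P := PZ K z) (P' := PZ K z') σ
  constructor
  · rintro ⟨h1, h2⟩
    obtain ⟨h3, h4, h5⟩ := h.1 h2
    have hs : ∀ m n, sm z' (σ m) (σ n) ↔ sm z m n := by
      intro m n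
      unfold sm
      have h6 := h1 m n
      have h7 := h1 n m
      change z'.1 _ _ = z.1 _ _ at h6 h7
      rw [h6, h7]
    refine ⟨h1, ?_, ?_, ?_⟩
    · intro m n l hmn hml
      have h6 : _ ↔ _ := h4 m n l
      constructor
      · intro h7
        exact (h6.1 ⟨(hs _ _).2 hmn, (hs _ _).2 hml, h7⟩).2.2
      · intro h7
        exact (h6.2 ⟨hmn, hml, h7⟩).2.2
    · intro m n hmn
      have h6 : _ ↔ _ := h3 m n
      constructor
      · intro h7
        exact (h6.1 ⟨(hs _ _).2 hmn, h7⟩).2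
      · intro h7
        exact (h6.2 ⟨hmn, h7⟩).2
    · intro m n hmn s
      have h6 : _ ↔ _ := h5 s m n
      constructor
      · intro h7
        exact (h6.1 ⟨(hs _ _).2 hmn, h7⟩).2
      · intro h7
        exact (h6.2 ⟨hmn, h7⟩).2
  · intro hσ
    refine ⟨hσ.ord, h.2 ⟨?_, ?_, ?_⟩⟩
    · intro m n
      show sm z' _ _ ∧ _ ↔ sm z _ _ ∧ _
      rw [hσ.sm]
      constructor
      · rintro ⟨h1, h2⟩
        exact ⟨h1, (hσ.lt m n h1).1 h2⟩
      · rintro ⟨h1, h2⟩
        exact ⟨h1, (hσ.lt m n h1).2 h2⟩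
    · intro m n l
      show sm z' _ _ ∧ sm z' _ _ ∧ _ ↔ sm z _ _ ∧ sm z _ _ ∧ _
      rw [hσ.sm, hσ.sm]
      constructor
      · rintro ⟨h1, h2, h3⟩
        exact ⟨h1, h2, (hσ.add m n l h1 h2).1 h3⟩
      · rintro ⟨h1, h2, h3⟩
        exact ⟨h1, h2, (hσ.add m n l h1 h2).2 h3⟩
    · intro s m n
      show sm z' _ _ ∧ _ ↔ sm z _ _ ∧ _
      rw [hσ.sm]
      constructor
      · rintro ⟨h1, h2⟩
        exact ⟨h1, (hσ.smul m n h1 s).1 h2⟩
      · rintro ⟨h1, h2⟩
        exact ⟨h1, (hσ.smul m n h1 s).2 h2⟩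

/-- Scaling. -/
theorem PZ_scale {z : Z} {c : ℕ → ℝ} (hc : ∀ m, 0 < c m) (hcs : ∀ m n, sm z m n → c m = c n) :
    PZ K (z.1, fun m => c m * z.2 m) = PZ K z := by
  have hsm : ∀ m n, sm (z.1, fun m => c m * z.2 m) m n ↔ sm z m n := fun m n => Iff.rfl
  refine Prod.ext ?_ (Prod.ext ?_ ?_)
  · funext m n
    apply propext
    show sm _ m n ∧ c m * z.2 m < c n * z.2 n ↔ sm z m n ∧ z.2 m < z.2 n
    rw [hsm]
    constructor
    · rintro ⟨h1, h2⟩
      refine ⟨h1, ?_⟩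
      rw [← hcs m n h1] at h2
      exact lt_of_mul_lt_mul_left h2 (hc m).le
    · rintro ⟨h1, h2⟩
      refine ⟨h1, ?_⟩
      rw [← hcs m n h1]
      exact mul_lt_mul_of_pos_left h2 (hc m)
  · funext m n l
    apply propext
    show sm _ m n ∧ sm _ m l ∧ c m * z.2 m + c n * z.2 n = c l * z.2 l ↔
      sm z m n ∧ sm z m l ∧ z.2 m + z.2 n = z.2 l
    rw [hsm, hsm]
    refine and_congr_right fun h1 => and_congr_right fun h2 => ?_
    rw [← hcs m n h1, ← hcs m l h2, ← mul_add]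
    exact mul_right_inj' (hc m).ne'
  · funext s m n
    apply propext
    show sm _ m n ∧ (s : ℝ) * (c m * z.2 m) = c n * z.2 n ↔ sm z m n ∧ (s : ℝ) * z.2 m = z.2 n
    rw [hsm]
    refine and_congr_right fun h1 => ?_
    rw [← hcs m n h1, mul_left_comm]
    exact mul_right_inj' (hc m).ne'

theorem Z0_scale {z : Z} (hz : Z0 K z) {c : ℕ → ℝ} (hc : ∀ m, 0 < c m)
    (hcs : ∀ m n, sm z m n → c m = c n) : Z0 K (z.1, fun m => c m * z.2 m) := by
  refine ⟨hz.irr, hz.tr, hz.wk, ?_, ?_, ?_, ?_⟩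
  · intro m n h1 h2
    have h1' : sm z m n := h1
    have h2' : c m * z.2 m = c n * z.2 n := h2
    rw [← hcs m n h1', mul_right_inj' (hc m).ne'] at h2'
    exact hz.inj m n h1' h2'
  · intro m n h1
    obtain ⟨k, h2, h3⟩ := hz.add m n h1
    refine ⟨k, h2, ?_⟩
    show c k * z.2 k = c m * z.2 m + c n * z.2 n
    rw [← hcs m k h2, ← hcs m n h1, h3, mul_add]
  · intro s hs m
    obtain ⟨k, h2, h3⟩ := hz.smul s hs m
    refine ⟨k, h2, ?_⟩
    show c k * z.2 k = s * (c m * z.2 m)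
    rw [← hcs m k h2, h3, mul_left_comm]
  · intro m
    obtain ⟨k, h2, h3⟩ := hz.nz m
    exact ⟨k, h2, mul_ne_zero (hc k).ne' h3⟩

/-- Ratios are determined by comparisons. -/
theorem ratio {x p x' p' : ℝ} (hp : 0 < p) (hp' : 0 < p')
    (h : ∀ a b : ℤ, (a * p < b * x ↔ a * p' < b * x')) : x / p = x' / p' := by
  have key : ∀ {x p x' p' : ℝ}, 0 < p → 0 < p' →
      (∀ a b : ℤ, (a * p < b * x ↔ a * p' < b * x')) → ¬ x / p < x' / p' := by
    intro x p x' p' hp hp' h hlt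
    obtain ⟨q, hq1, hq2⟩ := exists_rat_btwn hlt
    have hden : (0 : ℝ) < q.den := by exact_mod_cast q.den_pos
    have hqe : (q : ℝ) = q.num / q.den := by
      exact_mod_cast (Rat.num_div_den q).symm
    rw [hqe] at hq1 hq2
    rw [div_lt_div_iff₀ hp hden] at hq1
    rw [div_lt_div_iff₀ hden hp'] at hq2
    have h1 := (h q.num q.den).2 (by push_cast; linarith)
    push_cast at h1
    linarith
  rcases lt_trichotomy (x / p) (x' / p') with h1 | h1 | h1
  · exact absurd h1 (key hp hp' h)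
  · exact h1
  · exact absurd h1 (key hp' hp fun a b => (h a b).symm)

theorem Z0.exists_pos {z : Z} (hz : Z0 K z) (m : ℕ) : ∃ k, sm z m k ∧ 0 < z.2 k := by
  obtain ⟨k, h1, h2⟩ := hz.nz m
  rcases lt_or_gt_of_ne h2 with h3 | h3
  · obtain ⟨j, h4, h5⟩ := hz.neg k
    exact ⟨j, hz.trans h1 h4, by rw [h5]; linarith⟩
  · exact ⟨k, h1, h3⟩

/-- Ratios in blocks with the same relations. -/
theorem ratio_of_PZ {z z' : Z} (hz : Z0 K z) (h : PZ K z = PZ K z')
    {m p : ℕ} (hs : sm z m p) (hp : 0 < z.2 p) (hp' : 0 < z'.2 p) :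
    z.2 m / z.2 p = z'.2 m / z'.2 p := by
  have hL : ∀ m n, (sm z m n ∧ z.2 m < z.2 n) ↔ (sm z' m n ∧ z'.2 m < z'.2 n) := by
    intro m n
    have := congrFun (congrFun (congrArg (fun P : PR K => P.1) h) m) n
    exact Iff.of_eq this
  have hS : ∀ (s : K) m n, (sm z m n ∧ (s : ℝ) * z.2 m = z.2 n) ↔
      (sm z' m n ∧ (s : ℝ) * z'.2 m = z'.2 n) := by
    intro s m n
    have := congrFun (congrFun (congrFun (congrArg (fun P : PR K => P.2.2) h) s) m) n
    exact Iff.of_eq this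
  have hsm : ∀ m n, sm z m n → sm z' m n := by
    intro m n hmn
    rcases lt_trichotomy (z.2 m) (z.2 n) with h1 | h1 | h1
    · exact ((hL m n).1 ⟨hmn, h1⟩).1
    · have h2 : m = n := hz.inj m n hmn h1
      subst h2
      exact ((hS 1 m m).1 ⟨hmn, by simp⟩).1
    · exact ((hL n m).1 ⟨hmn.symm, h1⟩).1.symm
  refine ratio hp hp' fun a b => ?_
  obtain ⟨j, hj1, hj2⟩ := hz.smul ((a : K) : ℝ) (a : K).2 p
  obtain ⟨k, hk1, hk2⟩ := hz.smul ((b : K) : ℝ) (b : K).2 m
  have hj3 := ((hS (a : K) p j).1 ⟨hj1, hj2.symm⟩).2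
  have hk3 := ((hS (b : K) m k).1 ⟨hk1, hk2.symm⟩).2
  push_cast at hj2 hk2 hj3 hk3
  rw [← hj2, ← hk2, hj3, hk3]
  have hjk : sm z j k := hz.trans hj1.symm (hz.trans hs.symm hk1)
  constructor
  · intro h1
    exact ((hL j k).1 ⟨hjk, h1⟩).2
  · intro h1
    exact ((hL j k).2 ⟨hsm j k hjk, h1⟩).2

/-- Normalised index structures. -/
def Nm (z : Z) : Prop := ∀ m, (0 < z.2 m ∧ ∀ n < m, sm z m n → z.2 n ≤ 0) → z.2 m = 1

theorem exists_nm (k : ℕ → K) {z : Z} (hz : Z0 K z) :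
    ∃ z', Z0 K z' ∧ Nm z' ∧ Ph k z' = Ph k z := by
  classical
  have hex : ∀ m, ∃ k, sm z m k ∧ 0 < z.2 k := hz.exists_pos
  let p : ℕ → ℕ := fun m => Nat.find (hex m)
  have hp1 : ∀ m, sm z m (p m) := fun m => (Nat.find_spec (hex m)).1
  have hp2 : ∀ m, 0 < z.2 (p m) := fun m => (Nat.find_spec (hex m)).2
  have hps : ∀ m n, sm z m n → p m = p n := by
    have key : ∀ m n, sm z m n → p m ≤ p n := by
      intro m n hs
      exact Nat.find_min' (hex m) ⟨hz.trans hs (hp1 n), hp2 n⟩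
    intro m n hs
    exact le_antisymm (key m n hs) (key n m hs.symm)
  let c : ℕ → ℝ := fun m => (z.2 (p m))⁻¹
  have hc : ∀ m, 0 < c m := fun m => inv_pos.2 (hp2 m)
  have hcs : ∀ m n, sm z m n → c m = c n := by
    intro m n hs
    simp only [c, hps m n hs]
  refine ⟨(z.1, fun m => c m * z.2 m), Z0_scale hz hc hcs, ?_, ?_⟩
  · rintro m ⟨h1, h2⟩
    have h1' : 0 < z.2 m := by
      have : 0 < c m * z.2 m := h1
      exact (mul_pos_iff_of_pos_left (hc m)).1 this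
    have hpm : p m = m := by
      apply le_antisymm
      · exact Nat.find_min' (hex m) ⟨hz.refl m, h1'⟩
      · by_contra hlt
        rw [not_le] at hlt
        have h3 : c (p m) * z.2 (p m) ≤ 0 := h2 (p m) hlt (hp1 m)
        exact absurd (mul_pos (hc (p m)) (hp2 m)) (not_lt.2 h3)
    show (z.2 (p m))⁻¹ * z.2 m = 1
    rw [hpm]
    exact inv_mul_cancel₀ h1'.ne'
  · unfold Ph
    rw [PZ_scale hc hcs]

theorem nm_inj {k : ℕ → K} (hk : Function.Surjective k) {z z' : Z} (hz : Z0 K z) (hz' : Z0 K z')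
    (hn : Nm z) (hn' : Nm z') (h : Ph k z = Ph k z') : z = z' := by
  classical
  have h1 : z.1 = z'.1 := congrArg (fun M : St ar => M.1) h
  have h2 : PZ K z = PZ K z' := mkRS_inj hk (congrArg (fun M : St ar => M.2) h)
  have hsm : ∀ m n, sm z m n ↔ sm z' m n := by
    intro m n
    unfold sm
    rw [h1]
  have hL : ∀ m n, (sm z m n ∧ z.2 m < z.2 n) ↔ (sm z' m n ∧ z'.2 m < z'.2 n) := by
    intro m n
    have := congrFun (congrFun (congrArg (fun P : PR K => P.1) h2) m) n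
    exact Iff.of_eq this
  have hS : ∀ (s : K) m n, (sm z m n ∧ (s : ℝ) * z.2 m = z.2 n) ↔
      (sm z' m n ∧ (s : ℝ) * z'.2 m = z'.2 n) := by
    intro s m n
    have := congrFun (congrFun (congrFun (congrArg (fun P : PR K => P.2.2) h2) s) m) n
    exact Iff.of_eq this
  have hpos : ∀ m, 0 < z.2 m ↔ 0 < z'.2 m := by
    intro m
    obtain ⟨o, ho1, ho2⟩ := hz.smul 0 K.zero_mem m
    have ho3 := ((hS 0 m o).1 ⟨ho1, by rw [ho2]; simp⟩).2
    rw [zero_mul] at ho2
    have ho3' : z'.2 o = 0 := by rw [← ho3]; simp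
    have := hL o m
    rw [ho2, ho3', hsm o m] at this
    have hs : sm z' o m := (hsm _ _).1 ho1.symm
    constructor
    · intro h3
      exact (this.1 ⟨hs, h3⟩).2
    · intro h3
      exact (this.2 ⟨hs, h3⟩).2
  refine Prod.ext h1 ?_
  funext m
  have hex := hz.exists_pos m
  obtain ⟨hp1, hp2⟩ := Nat.find_spec hex
  set p := Nat.find hex with hp
  have hmin : ∀ n < p, sm z p n → z.2 n ≤ 0 := by
    intro n hn hpn
    by_contra hcon
    rw [not_le] at hcon
    exact Nat.find_min hex hn ⟨hz.trans hp1 hpn, hcon⟩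
  have h3 : z.2 p = 1 := hn p ⟨hp2, hmin⟩
  have h4 : z'.2 p = 1 := hn' p ⟨(hpos p).1 hp2, fun n hn hpn => by
    have := hmin n hn ((hsm _ _).2 hpn)
    by_contra hcon
    rw [not_le] at hcon
    exact absurd ((hpos n).2 hcon) (not_lt.2 this)⟩
  have h5 := ratio_of_PZ hz h2 hp1 hp2 ((hpos p).1 hp2)
  rw [h3, h4, div_one, div_one] at h5
  exact h5

end Pool.Agent.TH783.OV
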