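import Pool.Agent.TH783.OV.Alg
import Pool.Agent.TH783.OV.Basis

set_option autoImplicit false
set_option linter.unusedSectionVars false

/-! Lexicographic sums of archimedean modules have index structures. -/

namespace Pool.Agent.TH783.OV

open Set

variable {K : Subring ℝ} {V : Type} [AddCommGroup V] [LinearOrder V] [IsOrderedAddMonoid V]
  [Module K V]

/-- Archimedean modules embed into the reals. -/
theorem coord [Archimedean V] (hp : PosS K V) : ∃ f : V → ℝ, (∀ x y, f (x + y) = f x + f y) ∧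
    (∀ x y, f x < f y ↔ x < y) ∧ ∀ (s : K) (x : V), f (s • x) = s * f x := by
  obtain ⟨f, hf⟩ := Archimedean.exists_orderAddMonoidHom_real_injective V
  have hadd : ∀ x y, f (x + y) = f x + f y := fun x y => map_add f x y
  have hmono : StrictMono f := f.monotone'.strictMono_of_injective hf
  have hzero : f 0 = 0 := map_zero f
  have hz : ∀ (n : ℤ) (x : V), f (n • x) = n * f x := by
    intro n x
    rw [map_zsmul, zsmul_eq_mul]
  have key : ∀ (s : K) (x : V), 0 < x → f (s • x) = s * f x := by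
    intro s x hx
    have hfx : 0 < f x := by rw [← hzero]; exact hmono hx
    have h1 : ∀ (a : ℤ) (b : ℕ), 0 < b → (a : ℝ) < b * (s : ℝ) → a * f x < b * f (s • x) := by
      intro a b hb hab
      have h2 : (0 : K) < (b : K) * s - (a : K) := by
        rw [sub_pos]
        have : (((a : K)) : ℝ) < (((b : K) * s : K) : ℝ) := by push_cast; exact hab
        exact_mod_cast this
      have h3 := hp _ _ h2 hx
      rw [sub_smul, sub_pos, mul_smul, Int.cast_smul_eq_zsmul, Nat.cast_smul_eq_nsmul] at h3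
      have h4 := hmono h3
      rw [hz, map_nsmul, nsmul_eq_mul] at h4
      exact h4
    have h1' : ∀ (a : ℤ) (b : ℕ), 0 < b → b * (s : ℝ) < (a : ℝ) → b * f (s • x) < a * f x := by
      intro a b hb hab
      have h2 : (0 : K) < (a : K) - (b : K) * s := by
        rw [sub_pos]
        have : (((b : K) * s : K) : ℝ) < (((a : K)) : ℝ) := by push_cast; exact hab
        exact_mod_cast this
      have h3 := hp _ _ h2 hx
      rw [sub_smul, sub_pos, mul_smul, Int.cast_smul_eq_zsmul, Nat.cast_smul_eq_nsmul] at h3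
      have h4 := hmono h3
      rw [hz, map_nsmul, nsmul_eq_mul] at h4
      exact h4
    by_contra hne
    rcases lt_or_gt_of_ne hne with h2 | h2
    · -- f (s x) / f x < q < s
      have h3 : f (s • x) / f x < s := by rwa [div_lt_iff₀ hfx]
      obtain ⟨q, hq1, hq2⟩ := exists_rat_btwn h3
      rw [div_lt_iff₀ hfx] at hq1
      have hden : (0 : ℝ) < q.den := by exact_mod_cast q.den_pos
      have hqe : (q : ℝ) = q.num / q.den := by
        exact_mod_cast (Rat.num_div_den q).symm
      have h4 := h1 q.num q.den q.den_pos (by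
        rw [hqe, div_lt_iff₀ hden] at hq2
        linarith)
      rw [hqe, div_mul_eq_mul_div, lt_div_iff₀ hden] at hq1
      linarith
    · have h3 : s < f (s • x) / f x := by rwa [lt_div_iff₀ hfx]
      obtain ⟨q, hq1, hq2⟩ := exists_rat_btwn h3
      rw [lt_div_iff₀ hfx] at hq2
      have hden : (0 : ℝ) < q.den := by exact_mod_cast q.den_pos
      have hqe : (q : ℝ) = q.num / q.den := by
        exact_mod_cast (Rat.num_div_den q).symm
      have h4 := h1' q.num q.den q.den_pos (by
        rw [hqe, lt_div_iff₀ hden] at hq1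
        linarith)
      rw [hqe, div_mul_eq_mul_div, div_lt_iff₀ hden] at hq2
      linarith
  refine ⟨f, hadd, fun x y => hmono.lt_iff_lt, fun s x => ?_⟩
  rcases lt_trichotomy x 0 with hx | rfl | hx
  · have h1 := key s (-x) (neg_pos.2 hx)
    rw [smul_neg, map_neg, map_neg, mul_neg, neg_inj] at h1
    exact h1
  · rw [smul_zero, hzero, mul_zero]
  · exact key s x hx

theorem exists_rep [Countable V] [Nontrivial V] (hp : PosS K V) (hl : LexSum K V) :
    ∃ (z : Z) (ι : ℕ → V), Z0 K z ∧ Rep (K := K) z ι := by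
  classical
  obtain ⟨A, hA1, hA2⟩ := hl
  -- coordinates
  have hco : ∀ γ : ArchimedeanClass V, ∃ φ : V → ℝ,
      (∀ x ∈ A γ, ∀ y ∈ A γ, φ (x + y) = φ x + φ y) ∧
      (∀ x ∈ A γ, ∀ y ∈ A γ, (φ x < φ y ↔ x < y)) ∧
      ∀ (s : K), ∀ x ∈ A γ, φ (s • x) = s * φ x := by
    intro γ
    have harch : Archimedean (A γ) := by
      refine ⟨fun x y hy => ?_⟩
      have hy' : (0 : V) < y := hy
      have h1 : ArchimedeanClass.mk (y : V) ≤ ArchimedeanClass.mk (x : V) := by
        by_cases hx : (x : V) = 0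
        · rw [hx, ArchimedeanClass.mk_zero]
          exact le_top
        · rw [hA1 γ y y.2 hy'.ne', hA1 γ x x.2 hx]
      rw [ArchimedeanClass.mk_le_mk] at h1
      obtain ⟨n, hn⟩ := h1
      refine ⟨n, ?_⟩
      rw [abs_of_pos hy'] at hn
      have : (x : V) ≤ ((n • y : A γ) : V) := (le_abs_self _).trans hn
      exact this
    have hp' : PosS K (A γ) := by
      intro s v hs hv
      have := hp s (v : V) hs hv
      exact this
    obtain ⟨f, hf1, hf2, hf3⟩ := coord (K := K) (V := A γ) hp'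
    refine ⟨fun v => if h : v ∈ A γ then f ⟨v, h⟩ else 0, ?_, ?_, ?_⟩
    · intro x hx y hy
      simp only [hx, hy, Submodule.add_mem _ hx hy, dif_pos]
      rw [← hf1]
      rfl
    · intro x hx y hy
      simp only [hx, hy, dif_pos]
      rw [hf2]
      rfl
    · intro s x hx
      simp only [hx, Submodule.smul_mem _ s hx, dif_pos]
      rw [← hf3]
      rfl
  choose φ hφ1 hφ2 hφ3 using hco
  have hφ0 : ∀ γ, φ γ 0 = 0 := by
    intro γ
    have := hφ3 γ 0 0 (Submodule.zero_mem _)
    rw [smul_zero] at this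
    rw [this]
    simp
  have hφi : ∀ γ, ∀ x ∈ A γ, ∀ y ∈ A γ, φ γ x = φ γ y → x = y := by
    intro γ x hx y hy h
    rcases lt_trichotomy x y with h1 | h1 | h1
    · exact absurd h ((hφ2 γ x hx y hy).2 h1).ne
    · exact h1
    · exact absurd h ((hφ2 γ y hy x hx).2 h1).ne'
  -- the index set
  let I := {p : ArchimedeanClass V × V // p.2 ∈ A p.1 ∧ ∃ v ∈ A p.1, v ≠ 0}
  have hIc : Countable I := by
    have : Countable (ArchimedeanClass V) := (ArchimedeanClass.mk_surjective V).countable
    infer_instance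
  have hex : ∃ γ, ∃ v ∈ A γ, v ≠ 0 := by
    by_contra hcon
    push Not at hcon
    have h1 : ⨆ γ, A γ = ⊥ := by
      rw [iSup_eq_bot]
      intro γ
      rw [Submodule.eq_bot_iff]
      exact hcon γ
    rw [hA2] at h1
    obtain ⟨v, hv⟩ := exists_ne (0 : V)
    have h2 : v ∈ (⊤ : Submodule K V) := Submodule.mem_top
    rw [h1, Submodule.mem_bot] at h2
    exact hv h2
  have hIi : Infinite I := by
    obtain ⟨γ, v, hv, hv0⟩ := hex
    refine Infinite.of_injective (fun n : ℕ => (⟨(γ, n • v), Submodule.smul_of_tower_mem _ n hv,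
      v, hv, hv0⟩ : I)) ?_
    intro m n hmn
    have h1 : m • v = n • v := congrArg (fun p : I => p.1.2) hmn
    rcases lt_trichotomy m n with h2 | h2 | h2
    · exfalso
      have h3 : (n - m) • v = 0 := by
        have := sub_nsmul v h2.le
        rw [this, h1]
        simp
      rw [smul_eq_zero] at h3
      rcases h3 with h3 | h3
      · omega
      · exact hv0 h3
    · exact h2
    · exfalso
      have h3 : (m - n) • v = 0 := by
        have := sub_nsmul v h2.le
        rw [this, h1]
        simp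
      rw [smul_eq_zero] at h3
      rcases h3 with h3 | h3
      · omega
      · exact hv0 h3
  obtain ⟨e⟩ := nonempty_equiv_of_countable (α := ℕ) (β := I)
  set z : Z := (fun m n => decide ((e m).1.1 < (e n).1.1), fun m => φ (e m).1.1 (e m).1.2) with hz
  have hz1 : ∀ m n, z.1 m n = true ↔ (e m).1.1 < (e n).1.1 := by
    intro m n
    rw [hz]
    exact decide_eq_true_iff
  have hz1f : ∀ m n, z.1 m n = false ↔ ¬ (e m).1.1 < (e n).1.1 := by
    intro m n
    rw [hz]
    exact decide_eq_false_iff_not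
  have hsm : ∀ m n, sm z m n ↔ (e m).1.1 = (e n).1.1 := by
    intro m n
    unfold sm
    rw [hz1f, hz1f]
    constructor
    · rintro ⟨h1, h2⟩
      exact le_antisymm (not_lt.1 h2) (not_lt.1 h1)
    · intro h1
      rw [h1]
      exact ⟨lt_irrefl _, lt_irrefl _⟩
  have hget : ∀ m (w : V), w ∈ A (e m).1.1 → ∃ k, sm z m k ∧ (e k).1.1 = (e m).1.1 ∧
      (e k).1.2 = w := by
    intro m w hw
    refine ⟨e.symm ⟨((e m).1.1, w), hw, (e m).2.2⟩, ?_, ?_, ?_⟩
    · rw [hsm, Equiv.apply_symm_apply]
    · rw [Equiv.apply_symm_apply]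
    · rw [Equiv.apply_symm_apply]
  have hmem : ∀ m n, (e m).1.1 = (e n).1.1 → (e n).1.2 ∈ A (e m).1.1 := by
    intro m n h
    rw [h]
    exact (e n).2.1
  have hmk : ∀ m, (e m).1.2 ≠ 0 → ArchimedeanClass.mk (e m).1.2 = (e m).1.1 :=
    fun m hm => hA1 _ _ (e m).2.1 hm
  have hmkle : ∀ m, (e m).1.1 ≤ ArchimedeanClass.mk (e m).1.2 := by
    intro m
    by_cases hm : (e m).1.2 = 0
    · rw [hm, ArchimedeanClass.mk_zero]
      exact le_top
    · rw [hmk m hm]
  refine ⟨z, fun m => (e m).1.2, ?_, ?_⟩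
  · refine ⟨?_, ?_, ?_, ?_, ?_, ?_, ?_⟩
    · intro m
      rw [hz1f]
      exact lt_irrefl _
    · intro m n k h1 h2
      rw [hz1] at h1 h2 ⊢
      exact h1.trans h2
    · intro m n k h1
      rw [hz1] at h1
      rw [hz1, hz1]
      by_contra hcon
      push Not at hcon
      exact absurd h1 (hcon.2.trans hcon.1).not_gt
    · intro m n hs h
      rw [hsm] at hs
      apply e.injective
      apply Subtype.ext
      refine Prod.ext hs ?_
      have h1 : φ (e m).1.1 (e m).1.2 = φ (e n).1.1 (e n).1.2 := h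
      rw [← hs] at h1
      exact hφi _ _ (e m).2.1 _ (hmem m n hs) h1
    · intro m n hs
      rw [hsm] at hs
      obtain ⟨k, h1, h2, h3⟩ := hget m ((e m).1.2 + (e n).1.2)
        (Submodule.add_mem _ (e m).2.1 (hmem m n hs))
      refine ⟨k, h1, ?_⟩
      show φ (e k).1.1 (e k).1.2 = φ (e m).1.1 (e m).1.2 + φ (e n).1.1 (e n).1.2
      rw [h2, h3, ← hs]
      exact hφ1 _ _ (e m).2.1 _ (hmem m n hs)
    · intro s hs m
      obtain ⟨k, h1, h2, h3⟩ := hget m ((⟨s, hs⟩ : K) • (e m).1.2)
        (Submodule.smul_mem _ _ (e m).2.1)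
      refine ⟨k, h1, ?_⟩
      show φ (e k).1.1 (e k).1.2 = s * φ (e m).1.1 (e m).1.2
      rw [h2, h3]
      exact hφ3 _ _ _ (e m).2.1
    · intro m
      obtain ⟨v, hv, hv0⟩ := (e m).2.2
      obtain ⟨k, h1, h2, h3⟩ := hget m v hv
      refine ⟨k, h1, ?_⟩
      show φ (e k).1.1 (e k).1.2 ≠ 0
      rw [h2, h3]
      intro h4
      apply hv0
      refine hφi _ _ hv _ (Submodule.zero_mem _) ?_
      rw [h4, hφ0]
  · refine ⟨?_, ?_, ?_, ?_, ?_⟩
    · intro m n k h1 h2
      rw [hsm] at h1 h2
      show (e m).1.2 + (e n).1.2 = (e k).1.2 ↔ φ (e m).1.1 (e m).1.2 + φ (e n).1.1 (e n).1.2 =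
        φ (e k).1.1 (e k).1.2
      rw [← h1, ← h2, ← hφ1 _ _ (e m).2.1 _ (hmem m n h1)]
      constructor
      · intro h
        rw [h]
      · exact hφi _ _ (Submodule.add_mem _ (e m).2.1 (hmem m n h1)) _ (hmem m k h2)
    · intro m n h1
      rw [hsm] at h1
      show (e m).1.2 < (e n).1.2 ↔ φ (e m).1.1 (e m).1.2 < φ (e n).1.1 (e n).1.2
      rw [← h1]
      exact (hφ2 _ _ (e m).2.1 _ (hmem m n h1)).symm
    · intro m n h1 s
      rw [hsm] at h1
      show s • (e m).1.2 = (e n).1.2 ↔ (s : ℝ) * φ (e m).1.1 (e m).1.2 = φ (e n).1.1 (e n).1.2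
      rw [← h1, ← hφ3 _ _ _ (e m).2.1]
      constructor
      · intro h
        rw [h]
      · exact hφi _ _ (Submodule.smul_mem _ _ (e m).2.1) _ (hmem m n h1)
    · intro m n h1 h2
      rw [hz1] at h1
      rw [hmk m h2]
      exact lt_of_lt_of_le h1 (hmkle n)
    · intro v
      have hv : v ∈ ⨆ γ, A γ := by rw [hA2]; exact Submodule.mem_top
      refine Submodule.iSup_induction (fun γ => A γ)
        (motive := fun v => ∃ l : List ℕ, (l.map fun m => (e m).1.2).sum = v) hv ?_ ?_ ?_
      · intro γ x hx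
        by_cases hx0 : x = 0
        · exact ⟨[], by simp [hx0]⟩
        · refine ⟨[e.symm ⟨(γ, x), hx, x, hx, hx0⟩], ?_⟩
          simp
      · exact ⟨[], by simp⟩
      · rintro x y ⟨l, hl⟩ ⟨l', hl'⟩
        exact ⟨l ++ l', by simp only [List.map_append, List.sum_append, hl, hl']⟩

end Pool.Agent.TH783.OV
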