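import Pool.Agent.TH783.OV.Alg
import Pool.Agent.TH783.OV.Basis

set_option autoImplicit false
set_option linter.unusedSectionVars false

/-! Every index structure comes from an ordered module. -/

namespace Pool.Agent.TH783.OV

open Set

variable {K : Subring ℝ} {z : Z}

/-- Real labels of the blocks. -/
theorem Z0.labels (hz : Z0 K z) : ∃ c : ℕ → ℝ, ∀ m n, z.1 m n = true ↔ c m < c n := by
  classical
  let f : ℕ → ℕ → ℝ := fun m k => if z.1 k m = true then (1 / 2 : ℝ) ^ k else 0
  have hf0 : ∀ m k, 0 ≤ f m k := by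
    intro m k
    simp only [f]
    split
    · positivity
    · exact le_rfl
  have hfs : ∀ m, Summable (f m) := by
    intro m
    refine Summable.of_nonneg_of_le (hf0 m) (fun k => ?_) summable_geometric_two
    simp only [f]
    split
    · exact le_rfl
    · positivity
  have hlt : ∀ m n, z.1 m n = true → ∑' k, f m k < ∑' k, f n k := by
    intro m n h
    refine Summable.tsum_lt_tsum_of_nonneg (i := m) (hf0 m) ?_ ?_ (hfs n)
    · intro k
      simp only [f]
      by_cases h1 : z.1 k m = true
      · rw [if_pos h1, if_pos (hz.tr k m n h1 h)]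
      · rw [if_neg h1]
        split
        · positivity
        · exact le_rfl
    · simp only [f]
      rw [if_pos h, if_neg (by rw [hz.irr]; exact Bool.false_ne_true)]
      positivity
  refine ⟨fun m => ∑' k, f m k, fun m n => ⟨hlt m n, fun h => ?_⟩⟩
  rcases trich (z := z) m n with h1 | h1 | h1
  · exact h1
  · exfalso
    have h2 : f m = f n := by
      funext k
      simp only [f]
      have : z.1 k m = true ↔ z.1 k n = true :=
        ⟨fun h3 => hz.lt_of_sm_right h3 h1, fun h3 => hz.lt_of_sm_right h3 h1.symm⟩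
      by_cases h3 : z.1 k m = true
      · rw [if_pos h3, if_pos (this.1 h3)]
      · rw [if_neg h3, if_neg (fun h4 => h3 (this.2 h4))]
    simp only [h2] at h
    exact lt_irrefl _ h
  · exact absurd h (hlt n m h1).not_gt

/-- The ambient ordered module. -/
abbrev W : Type := Lex (ℝ →₀ ℝ)

theorem W.lt_iff {a b : W} : a < b ↔ ∃ i : ℝ, (∀ j, j < i → (ofLex a) j = (ofLex b) j) ∧
    (ofLex a) i < (ofLex b) i := by
  exact Finsupp.Lex.lt_iff

/-- One-term elements. -/
noncomputable def sg (q a : ℝ) : W := toLex (Finsupp.single q a)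

theorem sg_apply (q a j : ℝ) : (ofLex (sg q a)) j = if q = j then a else 0 := by
  unfold sg
  rw [ofLex_toLex]
  exact Finsupp.single_apply

theorem sg_lt {q a b : ℝ} : sg q a < sg q b ↔ a < b := by
  rw [W.lt_iff]
  constructor
  · rintro ⟨i, h1, h2⟩
    rw [sg_apply, sg_apply] at h2
    by_cases h : q = i
    · rw [if_pos h, if_pos h] at h2
      exact h2
    · rw [if_neg h, if_neg h] at h2
      exact absurd h2 (lt_irrefl _)
  · intro h
    refine ⟨q, fun j hj => ?_, ?_⟩
    · rw [sg_apply, sg_apply, if_neg hj.ne', if_neg hj.ne']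
    · rw [sg_apply, sg_apply, if_pos rfl, if_pos rfl]
      exact h

theorem sg_add (q a b : ℝ) : sg q a + sg q b = sg q (a + b) := by
  unfold sg
  rw [Finsupp.single_add]
  rfl

theorem sg_inj {q a b : ℝ} : sg q a = sg q b ↔ a = b := by
  constructor
  · intro h
    rcases lt_trichotomy a b with h1 | h1 | h1
    · exact absurd h (sg_lt.2 h1).ne
    · exact h1
    · exact absurd h (sg_lt.2 h1).ne'
  · intro h
    rw [h]

theorem sg_zero (q : ℝ) : sg q 0 = 0 := by
  unfold sg
  rw [Finsupp.single_zero]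
  rfl

theorem sg_smul (s : K) (q a : ℝ) : s • sg q a = sg q (s * a) := by
  have h1 : (s : K) • (Finsupp.single q a : ℝ →₀ ℝ) = Finsupp.single q (s * a) := by
    rw [Finsupp.smul_single]
    rfl
  unfold sg
  rw [← h1]
  rfl

theorem sg_neg (q a : ℝ) : - sg q a = sg q (-a) := by
  have := sg_add q a (-a)
  rw [add_neg_cancel, sg_zero] at this
  exact neg_eq_of_add_eq_zero_right this

theorem sg_abs (q a : ℝ) : |sg q a| = sg q |a| := by
  rcases le_total 0 a with h | h
  · rw [abs_of_nonneg h]
    apply abs_of_nonneg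
    rw [← sg_zero q]
    rcases h.eq_or_lt with rfl | h
    · exact le_rfl
    · exact (sg_lt.2 h).le
  · rw [abs_of_nonpos h, ← sg_neg]
    apply abs_of_nonpos
    rw [← sg_zero q]
    rcases h.eq_or_lt with rfl | h
    · exact le_rfl
    · exact (sg_lt.2 h).le

theorem sg_nsmul (n : ℕ) (q a : ℝ) : n • sg q a = sg q (n * a) := by
  induction n with
  | zero => rw [zero_nsmul, Nat.cast_zero, zero_mul, sg_zero]
  | succ n ih =>
    rw [succ_nsmul, ih, sg_add]
    congr 1
    push_cast
    ring

theorem sg_dom {q q' a b : ℝ} (h : q < q') (ha : a ≠ 0) :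
    ArchimedeanClass.mk (sg q a) < ArchimedeanClass.mk (sg q' b) := by
  rw [ArchimedeanClass.mk_lt_mk]
  intro n
  rw [sg_abs, sg_abs, sg_nsmul, W.lt_iff]
  refine ⟨q, fun j hj => ?_, ?_⟩
  · rw [sg_apply, sg_apply, if_neg hj.ne', if_neg (hj.trans h).ne']
  · rw [sg_apply, sg_apply, if_pos rfl, if_neg h.ne']
    exact abs_pos.2 ha

theorem posS_W : PosS K W := by
  intro s v hs hv
  rw [W.lt_iff] at hv ⊢
  obtain ⟨i, h1, h2⟩ := hv
  refine ⟨i, fun j hj => ?_, ?_⟩
  · have h3 := h1 j hj
    have h4 : (ofLex (s • v)) j = s * (ofLex v) j := rfl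
    have h5 : (ofLex (0 : W)) j = 0 := rfl
    rw [h4, ← h3, h5, mul_zero]
  · have h4 : (ofLex (s • v)) i = s * (ofLex v) i := rfl
    have h5 : (ofLex (0 : W)) i = 0 := rfl
    rw [h5] at h2
    rw [h4, h5]
    exact mul_pos (by exact_mod_cast hs) h2

theorem mk_sub_lt {A : Submodule K W} {v w : A} :
    ArchimedeanClass.mk v < ArchimedeanClass.mk w ↔
      ArchimedeanClass.mk (v : W) < ArchimedeanClass.mk (w : W) := by
  rw [ArchimedeanClass.mk_lt_mk, ArchimedeanClass.mk_lt_mk]
  have habs : ∀ v : A, ((|v| : A) : W) = |(v : W)| := by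
    intro v
    rcases le_total 0 v with h | h
    · rw [abs_of_nonneg h, abs_of_nonneg (show (0 : W) ≤ v from h)]
    · rw [abs_of_nonpos h, abs_of_nonpos (show (v : W) ≤ 0 from h)]
      rfl
  refine forall_congr' fun n => ?_
  rw [← habs, ← habs]
  rfl

open Classical in
/-- The coordinate in the block of `m` of the sum of a list. -/
noncomputable def Sm (z : Z) (l : List ℕ) (m : ℕ) : ℝ :=
  (l.map fun i => if sm z m i then z.2 i else 0).sum

/-- Comparison of sums. -/
def LT (z : Z) (l l' : List ℕ) : Prop :=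
  ∃ m, (∀ n, z.1 n m = true → Sm z l n = Sm z l' n) ∧ Sm z l m < Sm z l' m

/-- Equality of sums. -/
def EQ (z : Z) (l l' : List ℕ) : Prop := ∀ m, Sm z l m = Sm z l' m

/-- Multiples of sums. -/
def SM (z : Z) (s : ℝ) (l l' : List ℕ) : Prop := ∀ m, s * Sm z l m = Sm z l' m

theorem sum_apply (c : ℕ → ℝ) (z : Z) (l : List ℕ) (q : ℝ) :
    (ofLex ((l.map fun i => sg (c i) (z.2 i)).sum)) q =
      (l.map fun i => if c i = q then z.2 i else 0).sum := by
  induction l with
  | nil => rfl
  | cons i l ih =>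
    rw [List.map_cons, List.sum_cons, List.map_cons, List.sum_cons, ← ih, ← sg_apply]
    rfl

theorem exists_mod (hz : Z0 K z) : ∃ (V : Type) (_ : AddCommGroup V) (_ : LinearOrder V)
    (_ : IsOrderedAddMonoid V) (_ : Module K V) (ι : ℕ → V), Countable V ∧ Nontrivial V ∧
    PosS K V ∧ Rep (K := K) z ι ∧ (∀ l l' : List ℕ, ((l.map ι).sum < (l'.map ι).sum ↔ LT z l l')) ∧
    (∀ l l' : List ℕ, ((l.map ι).sum = (l'.map ι).sum ↔ EQ z l l')) ∧
    (∀ (s : K) (l l' : List ℕ), (s • (l.map ι).sum = (l'.map ι).sum ↔ SM z s l l')) := by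
  classical
  obtain ⟨c, hc⟩ := hz.labels
  have hsm : ∀ m n, sm z m n → c m = c n := by
    intro m n h
    apply le_antisymm
    · by_contra h1
      rw [not_le, ← hc, h.2] at h1
      exact Bool.false_ne_true h1
    · by_contra h1
      rw [not_le, ← hc, h.1] at h1
      exact Bool.false_ne_true h1
  have hsm' : ∀ m n, c n = c m ↔ sm z m n := by
    intro m n
    refine ⟨fun h => ?_, fun h => (hsm m n h).symm⟩
    rcases trich (z := z) m n with h1 | h1 | h1
    · exact absurd ((hc _ _).1 h1) (by rw [h]; exact lt_irrefl _)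
    · exact h1
    · exact absurd ((hc _ _).1 h1) (by rw [h]; exact lt_irrefl _)
  let A : Submodule K W := Submodule.span K (range fun m => sg (c m) (z.2 m))
  let ι : ℕ → A := fun m => ⟨sg (c m) (z.2 m), Submodule.subset_span ⟨m, rfl⟩⟩
  have hval : ∀ l : List ℕ, (((l.map ι).sum : A) : W) = (l.map fun i => sg (c i) (z.2 i)).sum := by
    intro l
    induction l with
    | nil => rfl
    | cons i l ih =>
      rw [List.map_cons, List.sum_cons, List.map_cons, List.sum_cons, ← ih]
      rfl
  have hco : ∀ (l : List ℕ) (m : ℕ), (ofLex ((l.map fun i => sg (c i) (z.2 i)).sum)) (c m) =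
      Sm z l m := by
    intro l m
    rw [sum_apply]
    unfold Sm
    congr 1
    refine List.map_congr_left fun i _ => ?_
    by_cases h : sm z m i
    · rw [if_pos h, if_pos ((hsm' m i).2 h)]
    · rw [if_neg h, if_neg (fun h1 => h ((hsm' m i).1 h1))]
  have hco0 : ∀ (l : List ℕ) (q : ℝ), (∀ m, c m ≠ q) →
      (ofLex ((l.map fun i => sg (c i) (z.2 i)).sum)) q = 0 := by
    intro l q hq
    rw [sum_apply]
    apply List.sum_eq_zero
    intro x hx
    obtain ⟨i, -, rfl⟩ := List.mem_map.1 hx
    rw [if_neg (hq i)]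
  have hlt : ∀ l l' : List ℕ, ((l.map ι).sum < (l'.map ι).sum ↔ LT z l l') := by
    intro l l'
    rw [← Subtype.coe_lt_coe, hval, hval, W.lt_iff]
    constructor
    · rintro ⟨q, h1, h2⟩
      obtain ⟨m, rfl⟩ : ∃ m, c m = q := by
        by_contra hcon
        push Not at hcon
        rw [hco0 l q hcon, hco0 l' q hcon] at h2
        exact lt_irrefl _ h2
      rw [hco, hco] at h2
      refine ⟨m, fun n hn => ?_, h2⟩
      have := h1 (c n) ((hc n m).1 hn)
      rw [hco, hco] at this
      exact this
    · rintro ⟨m, h1, h2⟩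
      refine ⟨c m, fun j hj => ?_, by rw [hco, hco]; exact h2⟩
      by_cases hj' : ∃ n, c n = j
      · obtain ⟨n, rfl⟩ := hj'
        rw [hco, hco]
        exact h1 n ((hc n m).2 hj)
      · push Not at hj'
        rw [hco0 l j hj', hco0 l' j hj']
  have hext : ∀ v w : W, v = w ↔ ∀ q, (ofLex v) q = (ofLex w) q := by
    intro v w
    constructor
    · intro h q
      rw [h]
    · intro h
      exact congrArg toLex (Finsupp.ext h)
  have heq : ∀ l l' : List ℕ, ((l.map ι).sum = (l'.map ι).sum ↔ EQ z l l') := by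
    intro l l'
    rw [Subtype.ext_iff, hval, hval, hext]
    constructor
    · intro h m
      have := h (c m)
      rw [hco, hco] at this
      exact this
    · intro h q
      by_cases hq : ∃ n, c n = q
      · obtain ⟨n, rfl⟩ := hq
        rw [hco, hco]
        exact h n
      · push Not at hq
        rw [hco0 l q hq, hco0 l' q hq]
  have hsmul : ∀ (s : K) (l l' : List ℕ), (s • (l.map ι).sum = (l'.map ι).sum ↔
      SM z s l l') := by
    intro s l l'
    have h1 : (((s • (l.map ι).sum : A)) : W) = s • (((l.map ι).sum : A) : W) := rfl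
    rw [Subtype.ext_iff, h1, hval, hval, hext]
    have h2 : ∀ (v : W) (q : ℝ), (ofLex (s • v)) q = s * (ofLex v) q := fun v q => rfl
    constructor
    · intro h m
      have := h (c m)
      rw [h2, hco, hco] at this
      exact this
    · intro h q
      rw [h2]
      by_cases hq : ∃ n, c n = q
      · obtain ⟨n, rfl⟩ := hq
        rw [hco, hco]
        exact h n
      · push Not at hq
        rw [hco0 l q hq, hco0 l' q hq, mul_zero]
  have hspan : ∀ v : A, ∃ l : List ℕ, (l.map ι).sum = v := by
    rintro ⟨v, hv⟩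
    induction hv using Submodule.span_induction with
    | mem x h =>
      obtain ⟨m, rfl⟩ := h
      refine ⟨[m], ?_⟩
      rw [List.map_singleton, List.sum_singleton]
    | zero => exact ⟨[], rfl⟩
    | add x y hx hy h1 h2 =>
      obtain ⟨l, hl⟩ := h1
      obtain ⟨l', hl'⟩ := h2
      refine ⟨l ++ l', ?_⟩
      rw [List.map_append, List.sum_append, hl, hl']
      rfl
    | smul s x hx h1 =>
      obtain ⟨l, hl⟩ := h1
      choose sc hsc1 hsc2 using fun m => hz.smul s s.2 m
      refine ⟨l.map sc, ?_⟩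
      have h2 : ((l.map sc).map ι).sum = s • (l.map ι).sum := by
        rw [List.smul_sum, List.map_map, List.map_map]
        congr 1
        refine List.map_congr_left fun i _ => ?_
        apply Subtype.ext
        show sg (c (sc i)) (z.2 (sc i)) = s • sg (c i) (z.2 i)
        rw [sg_smul, hsc2, hsm _ _ (hsc1 i)]
      rw [h2, hl]
      rfl
  refine ⟨A, inferInstance, inferInstance, inferInstance, inferInstance, ι, ?_, ?_, ?_, ?_,
    hlt, heq, hsmul⟩
  · exact Function.Surjective.countable (f := fun l : List ℕ => (l.map ι).sum) hspan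
  · obtain ⟨k, -, hk⟩ := hz.nz 0
    refine ⟨ι k, 0, fun h => hk ?_⟩
    have h1 : sg (c k) (z.2 k) = 0 := congrArg (fun v : A => (v : W)) h
    rw [← sg_zero (c k), sg_inj] at h1
    exact h1
  · intro s v hs hv
    exact posS_W s (v : W) hs hv
  · refine ⟨?_, ?_, ?_, ?_, hspan⟩
    · intro m n k h1 h2
      rw [Subtype.ext_iff]
      show sg (c m) (z.2 m) + sg (c n) (z.2 n) = sg (c k) (z.2 k) ↔ _
      rw [← hsm _ _ h1, ← hsm _ _ h2, sg_add, sg_inj]
    · intro m n h1
      show sg (c m) (z.2 m) < sg (c n) (z.2 n) ↔ _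
      rw [← hsm _ _ h1, sg_lt]
    · intro m n h1 s
      rw [Subtype.ext_iff]
      show s • sg (c m) (z.2 m) = sg (c n) (z.2 n) ↔ _
      rw [← hsm _ _ h1, sg_smul, sg_inj]
    · intro m n h1 h2
      rw [mk_sub_lt]
      refine sg_dom ((hc m n).1 h1) ?_
      intro h3
      apply h2
      apply Subtype.ext
      show sg (c m) (z.2 m) = 0
      rw [h3, sg_zero]

end Pool.Agent.TH783.OV
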