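import Pool.Agent.TH783.OV.Main

set_option autoImplicit false
set_option linter.unusedSectionVars false

/-! Vaught's conjecture for ordered modules: final assembly. -/

namespace Pool.Agent.TH783.OV

open Set MeasureTheory
open Pool.Agent.H533R2.VO (RS RIso Dich)
open Pool.Agent.H899R2.VP (St)
open Pool.Agent.TH783.TR

variable {T : Set ℝ}

/-- Ordered modules which are divisible or lexicographic sums of archimedean submodules. -/
def Good (x : XT T) : Prop :=
  ∃ (V : Type) (_ : AddCommGroup V) (_ : LinearOrder V) (_ : IsOrderedAddMonoid V)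
    (_ : Module (Subring.closure T) V) (e : ℕ ≃ V), PosS (Subring.closure T) V ∧ Cp x e ∧
    (DivS (Subring.closure T) V ∨ LexSum (Subring.closure T) V)

/-- Transport of index structures. -/
theorem Z0.transport {K : Subring ℝ} {z : Z} (hz : Z0 K z) (σ : Equiv.Perm ℕ) :
    ∃ z' : Z, Z0 K z' ∧ ZIso K z z' σ := by
  refine ⟨(fun m n => z.1 (σ.symm m) (σ.symm n), fun m => z.2 (σ.symm m)), ?_, ?_⟩
  · refine ⟨fun m => hz.irr _, fun m n k => hz.tr _ _ _, fun m n k => hz.wk _ _ _, ?_, ?_, ?_, ?_⟩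
    · intro m n h1 h2
      exact σ.symm.injective (hz.inj _ _ h1 h2)
    · intro m n h1
      obtain ⟨k, h2, h3⟩ := hz.add _ _ h1
      refine ⟨σ k, ?_, ?_⟩
      · show z.1 (σ.symm m) (σ.symm (σ k)) = false ∧ z.1 (σ.symm (σ k)) (σ.symm m) = false
        rw [σ.symm_apply_apply]
        exact h2
      · show z.2 (σ.symm (σ k)) = _
        rw [σ.symm_apply_apply]
        exact h3
    · intro s hs m
      obtain ⟨k, h2, h3⟩ := hz.smul s hs (σ.symm m)
      refine ⟨σ k, ?_, ?_⟩
      · show z.1 (σ.symm m) (σ.symm (σ k)) = false ∧ z.1 (σ.symm (σ k)) (σ.symm m) = false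
        rw [σ.symm_apply_apply]
        exact h2
      · show z.2 (σ.symm (σ k)) = _
        rw [σ.symm_apply_apply]
        exact h3
    · intro m
      obtain ⟨k, h2, h3⟩ := hz.nz (σ.symm m)
      refine ⟨σ k, ?_, ?_⟩
      · show z.1 (σ.symm m) (σ.symm (σ k)) = false ∧ z.1 (σ.symm (σ k)) (σ.symm m) = false
        rw [σ.symm_apply_apply]
        exact h2
      · show z.2 (σ.symm (σ k)) ≠ 0
        rw [σ.symm_apply_apply]
        exact h3
  · refine ⟨?_, ?_, ?_, ?_⟩
    · intro m n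
      show z.1 (σ.symm (σ m)) (σ.symm (σ n)) = _
      rw [σ.symm_apply_apply, σ.symm_apply_apply]
    · intro m n k _ _
      show z.2 (σ.symm (σ m)) + z.2 (σ.symm (σ n)) = z.2 (σ.symm (σ k)) ↔ _
      rw [σ.symm_apply_apply, σ.symm_apply_apply, σ.symm_apply_apply]
    · intro m n _
      show z.2 (σ.symm (σ m)) < z.2 (σ.symm (σ n)) ↔ _
      rw [σ.symm_apply_apply, σ.symm_apply_apply]
    · intro m n _ s
      show (s : ℝ) * z.2 (σ.symm (σ m)) = z.2 (σ.symm (σ n)) ↔ _
      rw [σ.symm_apply_apply, σ.symm_apply_apply]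

theorem D_inv {K : Subring ℝ} {k : ℕ → K} (hk : Function.Surjective k) {M N : St ar}
    (hM : M ∈ Ph k '' {z : Z | Z0 K z}) (h : SI M N) : N ∈ Ph k '' {z : Z | Z0 K z} := by
  obtain ⟨z, hz, rfl⟩ := hM
  obtain ⟨σ, h1, h2⟩ := h
  obtain ⟨z', hz', hσ⟩ := Z0.transport hz σ
  refine ⟨z', hz', ?_⟩
  obtain ⟨h3, h4⟩ := (Ph_iso hk σ).2 hσ
  refine Prod.ext ?_ ?_
  · funext x y
    have h5 := h1 (σ.symm x) (σ.symm y)
    have h6 := h3 (σ.symm x) (σ.symm y)
    rw [σ.apply_symm_apply, σ.apply_symm_apply] at h5 h6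
    rw [h5, h6]
  · funext i v
    have h5 := h2 i (σ.symm ∘ v)
    have h6 := h4 i (σ.symm ∘ v)
    have h7 : ⇑σ ∘ ⇑σ.symm ∘ v = v := by
      funext j
      simp
    rw [h7] at h5 h6
    rw [h5, h6]

theorem Rep_map {K : Subring ℝ} {V V' : Type} [AddCommGroup V] [LinearOrder V]
    [IsOrderedAddMonoid V] [Module K V] [AddCommGroup V'] [LinearOrder V'] [IsOrderedAddMonoid V']
    [Module K V'] {z : Z} {ι : ℕ → V} (h : Rep (K := K) z ι) (θ : V ≃ V')
    (h1 : ∀ v w, θ (v + w) = θ v + θ w) (h2 : ∀ v w, θ v < θ w ↔ v < w)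
    (h3 : ∀ (s : K) (v : V), θ (s • v) = s • θ v) : Rep (K := K) z (fun n => θ (ι n)) := by
  have h0 : θ 0 = 0 := by
    have := h1 0 0
    rw [add_zero] at this
    exact left_eq_add.1 this
  have hneg : ∀ v, θ (-v) = - θ v := by
    intro v
    apply eq_neg_of_add_eq_zero_left
    rw [← h1, neg_add_cancel, h0]
  have habs : ∀ v, θ |v| = |θ v| := by
    intro v
    rcases le_total 0 v with h4 | h4
    · have h5 : 0 ≤ θ v := by
        rcases h4.eq_or_lt with rfl | h4
        · rw [h0]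
        · rw [← h0]
          exact ((h2 _ _).2 h4).le
      rw [abs_of_nonneg h4, abs_of_nonneg h5]
    · have h5 : θ v ≤ 0 := by
        rcases h4.eq_or_lt with rfl | h4
        · rw [h0]
        · rw [← h0]
          exact ((h2 _ _).2 h4).le
      rw [abs_of_nonpos h4, abs_of_nonpos h5, hneg]
  have hns : ∀ (n : ℕ) v, θ (n • v) = n • θ v := by
    intro n v
    induction n with
    | zero => rw [zero_nsmul, zero_nsmul, h0]
    | succ n ih => rw [succ_nsmul, succ_nsmul, h1, ih]
  refine ⟨?_, ?_, ?_, ?_, ?_⟩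
  · intro m n k hmn hmk
    rw [← h1, θ.injective.eq_iff]
    exact h.add m n k hmn hmk
  · intro m n hmn
    rw [h2]
    exact h.lt m n hmn
  · intro m n hmn s
    rw [← h3, θ.injective.eq_iff]
    exact h.smul m n hmn s
  · intro m n hmn hm
    have h4 := h.dom m n hmn (fun h5 => hm (by rw [h5, h0]))
    rw [ArchimedeanClass.mk_lt_mk] at h4 ⊢
    intro N
    rw [← habs, ← habs, ← hns, h2]
    exact h4 N
  · intro v
    obtain ⟨v, rfl⟩ := θ.surjective v
    obtain ⟨l, rfl⟩ := h.span v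
    refine ⟨l, ?_⟩
    induction l with
    | nil => rw [List.map_nil, List.map_nil, List.sum_nil, List.sum_nil, h0]
    | cons i l ih => rw [List.map_cons, List.map_cons, List.sum_cons, List.sum_cons, h1, ih]

/-- The main correspondence. -/
theorem main_iso {x x' : XT T} {z z' : Z} {h h' : ℕ → ℕ} (hr : Rr x z h) (hr' : Rr x' z' h') :
    IsoX x x' ↔ ∃ σ : Equiv.Perm ℕ, ZIso (Subring.closure T) z z' σ := by
  obtain ⟨V, i1, i2, i3, i4, ι, -, -, hp, hR, e1, e2, e3⟩ := exists_mod hr.z0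
  obtain ⟨V', i1', i2', i3', i4', ι', -, -, -, hR', e1', e2', e3'⟩ := exists_mod hr'.z0
  obtain ⟨e, he⟩ := hr.copy hR e1 e2 e3
  obtain ⟨e', he'⟩ := hr'.copy hR' e1' e2' e3'
  rw [iso_iff he he']
  constructor
  · rintro ⟨θ, h1, h2, h3⟩
    have h1' : ∀ v w, θ.symm (v + w) = θ.symm v + θ.symm w := by
      intro v w
      apply θ.injective
      rw [h1, θ.apply_symm_apply, θ.apply_symm_apply, θ.apply_symm_apply]
    have h2' : ∀ v w, θ.symm v < θ.symm w ↔ v < w := by
      intro v w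
      rw [← h2, θ.apply_symm_apply, θ.apply_symm_apply]
    have h3' : ∀ (s : Subring.closure T) (v : V'), θ.symm (s • v) = s • θ.symm v := by
      intro s v
      apply θ.injective
      rw [h3, θ.apply_symm_apply, θ.apply_symm_apply]
    exact skel hp.mk_smul_le hR hr.z0 (Rep_map hR' θ.symm h1' h2' h3') hr'.z0
  · rintro ⟨σ, hσ⟩
    exact extend hR hr.z0 hR' hr'.z0 hσ

theorem ZIso.refl (K : Subring ℝ) (z : Z) : ZIso K z z (1 : Equiv.Perm ℕ) :=
  ⟨fun _ _ => rfl, fun _ _ _ _ _ => Iff.rfl, fun _ _ _ => Iff.rfl, fun _ _ _ _ => Iff.rfl⟩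

theorem exists_rr {x : XT T} {V : Type} [AddCommGroup V] [LinearOrder V]
    [IsOrderedAddMonoid V] [Module (Subring.closure T) V] {e : ℕ ≃ V} (he : Cp x e) {z : Z}
    (hz : Z0 (Subring.closure T) z) {ι : ℕ → V} (hR : Rep (K := Subring.closure T) z ι) :
    ∃ h : ℕ → ℕ, Rr x z h := by
  obtain ⟨V', i1', i2', i3', i4', ι', -, -, hp, hR', e1', e2', e3'⟩ := exists_mod hz
  obtain ⟨θ, h1, h2, h3⟩ := extend hR hz hR' hz (ZIso.refl _ z)
  have he' : Cp x (e.trans θ) := by
    refine ⟨?_, ?_, ?_⟩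
    · intro m n
      rw [he.lt]
      exact (h2 _ _).symm
    · intro m n
      show θ (e (x.2.1 m n)) = θ (e m) + θ (e n)
      rw [he.add, h1]
    · intro t m
      show θ (e (x.2.2 t m)) = sc t • θ (e m)
      rw [he.smul, h3]
  exact he'.rr hz hR' e1' e2' e3'

theorem good_rr {x : XT T} (hx : Good x) : ∃ (z : Z) (h : ℕ → ℕ), Rr x z h := by
  obtain ⟨V, i1, i2, i3, i4, e, hp, he, hor⟩ := hx
  have hc : Countable V := e.symm.injective.countable
  have hn : Nontrivial V := ⟨e 0, e 1, fun h => absurd (e.injective h) zero_ne_one⟩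
  have hl : LexSum (Subring.closure T) V := by
    rcases hor with h | h
    · exact lexSum_of_div hp h
    · exact h
  obtain ⟨z, ι, hz, hR⟩ := exists_rep hp hl
  obtain ⟨h, hh⟩ := exists_rr he hz hR
  exact ⟨z, h, hh⟩

theorem exists_x {z : Z} (hz : Z0 (Subring.closure T) z) : ∃ (x : XT T) (h : ℕ → ℕ), Rr x z h := by
  classical
  obtain ⟨V, i1, i2, i3, i4, ι, hc, hn, hp, hR, e1, e2, e3⟩ := exists_mod hz
  have hi : Infinite V := by
    obtain ⟨v, hv⟩ := exists_ne (0 : V)
    refine Infinite.of_injective (fun n : ℕ => n • v) ?_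
    intro m n hmn
    rcases lt_trichotomy m n with h2 | h2 | h2
    · exfalso
      have h3 : (n - m) • v = 0 := by
        have := sub_nsmul v h2.le
        have hmn' : m • v = n • v := hmn
        rw [this, hmn']
        simp
      rw [smul_eq_zero] at h3
      rcases h3 with h3 | h3
      · omega
      · exact hv h3
    · exact h2
    · exfalso
      have h3 : (m - n) • v = 0 := by
        have := sub_nsmul v h2.le
        have hmn' : m • v = n • v := hmn
        rw [this, hmn']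
        simp
      rw [smul_eq_zero] at h3
      rcases h3 with h3 | h3
      · omega
      · exact hv h3
  obtain ⟨e⟩ := nonempty_equiv_of_countable (α := ℕ) (β := V)
  let x : XT T := (fun m n => decide (e m < e n), fun m n => e.symm (e m + e n),
    fun t m => e.symm (sc t • e m))
  have hx : Cp x e := by
    refine ⟨?_, ?_, ?_⟩
    · intro m n
      exact decide_eq_true_iff
    · intro m n
      exact e.apply_symm_apply _
    · intro t m
      exact e.apply_symm_apply _
  obtain ⟨h, hh⟩ := hx.rr hz hR e1 e2 e3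
  exact ⟨x, h, hh⟩

theorem IsoX.symm {x x' : XT T} (h : IsoX x x') : IsoX x' x := by
  obtain ⟨σ, h1, h2, h3⟩ := h
  refine ⟨σ⁻¹, ?_, ?_, ?_⟩
  · intro m n
    rw [← h1]
    simp
  · intro m n
    apply σ.injective
    rw [← h2]
    simp
  · intro t m
    apply σ.injective
    rw [← h3]
    simp

/-- Vaught's conjecture for Borel classes of ordered modules which are divisible or lexicographic
sums of archimedean submodules. -/
theorem main [Countable T] (B : Set (XT T)) (hB : MeasurableSet B)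
    (hBi : ∀ x ∈ B, ∀ y, IsoX x y → y ∈ B) (hBg : ∀ x ∈ B, Good x) :
    (∃ f : ℕ → XT T, ∀ x ∈ B, ∃ n, IsoX (f n) x) ∨
    (∃ g : (ℕ → Bool) → XT T, Continuous g ∧ (∀ c, g c ∈ B) ∧
      ∀ c d, IsoX (g c) (g d) → c = d) := by
  classical
  obtain ⟨k, hk⟩ := exists_surjective_nat (Subring.closure T)
  set enc : XT T → RS ar := fun x => mkRS k (PX x) with henc
  have hencm : Measurable enc := enc_meas k
  have henci : Function.Injective enc := fun x y h => PX_inj (mkRS_inj hk h)
  have henciso : ∀ x x' : XT T, RIso (enc x) (enc x') ↔ IsoX x x' := by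
    intro x x'
    constructor
    · rintro ⟨σ, hσ⟩
      exact ⟨σ, (PX_iso σ).1 ((mkRS_iff hk _).1 hσ)⟩
    · rintro ⟨σ, hσ⟩
      exact ⟨σ, (mkRS_iff hk _).2 ((PX_iso σ).2 hσ)⟩
  -- transport of structures
  have htr : ∀ (x : XT T) (y : RS ar), RIso (enc x) y → ∃ x', enc x' = y := by
    rintro x y ⟨σ, hσ⟩
    let x' : XT T := (fun m n => x.1 (σ.symm m) (σ.symm n),
      fun m n => σ (x.2.1 (σ.symm m) (σ.symm n)), fun t m => σ (x.2.2 t (σ.symm m)))
    have h1 := (mkRS_iff hk (P := PX x) (P' := PX x') σ).2 ((PX_iso σ).2 ⟨?_, ?_, ?_⟩)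
    · refine ⟨x', ?_⟩
      funext i v
      have h3 : ⇑σ ∘ ⇑σ.symm ∘ v = v := by
        funext j
        simp
      have h4 := h1 i (σ.symm ∘ v)
      have h5 := hσ i (σ.symm ∘ v)
      rw [h3] at h4 h5
      show mkRS k (PX x') i v = y i v
      rw [h4, h5]
    · intro m n
      show x.1 (σ.symm (σ m)) (σ.symm (σ n)) = x.1 m n
      rw [σ.symm_apply_apply, σ.symm_apply_apply]
    · intro m n
      show σ (x.2.1 (σ.symm (σ m)) (σ.symm (σ n))) = _
      rw [σ.symm_apply_apply, σ.symm_apply_apply]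
    · intro t m
      show σ (x.2.2 t (σ.symm (σ m))) = _
      rw [σ.symm_apply_apply]
  set ρ : Set (RS ar × St ar) := (fun w : XT T × Z × (ℕ → ℕ) => (enc w.1, Ph k w.2.1)) ''
    {w | Rr w.1 w.2.1 w.2.2} with hρ
  have hρm : ∀ R M, (R, M) ∈ ρ ↔ ∃ x z h, Rr x z h ∧ enc x = R ∧ Ph k z = M := by
    intro R M
    constructor
    · rintro ⟨⟨x, z, h⟩, h1, h2⟩
      simp only [Prod.mk.injEq] at h2
      exact ⟨x, z, h, h1, h2.1, h2.2⟩
    · rintro ⟨x, z, h, h1, rfl, rfl⟩
      exact ⟨(x, z, h), h1, rfl⟩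
  have hbor : BorelSpace (RS ar × St ar) := Prod.borelSpace
  have hpol : PolishSpace (St ar) := {}
  have hρa : AnalyticSet ρ := by
    refine mRr.analyticSet_image ?_
    exact (hencm.comp measurable_fst).prodMk
      ((Ph_meas k).comp (measurable_fst.comp measurable_snd))
  have hKm : MeasurableSet (enc '' B) := hB.image_of_measurable_injOn hencm henci.injOn
  have hKi : ∀ x y, RIso x y → (x ∈ enc '' B ↔ y ∈ enc '' B) := by
    have key : ∀ x y, RIso x y → x ∈ enc '' B → y ∈ enc '' B := by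
      rintro _ y h ⟨x, hx, rfl⟩
      obtain ⟨x', rfl⟩ := htr x y h
      exact ⟨x', hBi x hx x' ((henciso _ _).1 h), rfl⟩
    exact fun x y h => ⟨key x y h, key y x (riso_symm h)⟩
  have hd := transfer (SI : St ar → St ar → Prop) (Ph k '' {z : Z | Z0 (Subring.closure T) z})
    (D_meas hk) (fun y hy y' h => D_inv hk hy h) (vcD hk) ρ hρa
    (by
      rintro _ ⟨z, hz, rfl⟩
      obtain ⟨x, h, hh⟩ := exists_x hz
      exact ⟨enc x, (hρm _ _).2 ⟨x, z, h, hh, rfl, rfl⟩⟩)
    (by
      intro R R' M M' h1 h2 _ _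
      obtain ⟨x, z, h, hr, rfl, rfl⟩ := (hρm _ _).1 h1
      obtain ⟨x', z', h', hr', rfl, rfl⟩ := (hρm _ _).1 h2
      rw [henciso, main_iso hr hr']
      exact exists_congr fun σ => (Ph_iso hk σ).symm)
    (enc '' B) hKm hKi
    (by
      rintro _ ⟨x, hx, rfl⟩
      obtain ⟨z, h, hr⟩ := good_rr (hBg x hx)
      exact ⟨Ph k z, ⟨z, hr.z0, rfl⟩, (hρm _ _).2 ⟨x, z, h, hr, rfl, rfl⟩⟩)
  rcases hd with ⟨f, hf⟩ | ⟨g, hg1, hg2, hg3⟩
  · left
    have hch : ∀ n, ∃ x : XT T, (∃ y ∈ B, RIso (f n) (enc y)) → enc x = f n := by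
      intro n
      by_cases hn : ∃ y ∈ B, RIso (f n) (enc y)
      · obtain ⟨y, -, hy⟩ := hn
        obtain ⟨x, hx⟩ := htr y (f n) (riso_symm hy)
        exact ⟨x, fun _ => hx⟩
      · exact ⟨(fun _ _ => false, fun _ _ => 0, fun _ _ => 0), fun h => absurd h hn⟩
    choose x hx using hch
    refine ⟨x, fun y hy => ?_⟩
    obtain ⟨n, hn⟩ := hf (enc y) ⟨y, hy, rfl⟩
    refine ⟨n, ?_⟩
    rw [← henciso, hx n ⟨y, hy, hn⟩]
    exact hn
  · right
    choose g' hg'1 hg'2 using hg2
    have hgeq : ∀ c, mkRS k (PX (g' c)) = g c := hg'2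
    refine ⟨g', ?_, hg'1, ?_⟩
    · have hco : ∀ i t, Continuous fun c => g c i t := fun i t =>
        (continuous_apply t).comp ((continuous_apply i).comp hg1)
      have e1 : ∀ c m n, (g' c).1 m n = g c 0 (![m, n] : Fin 2 → ℕ) := by
        intro c m n
        rw [← hgeq, Bool.eq_iff_iff]
        show _ ↔ decide _ = true
        rw [decide_eq_true_iff]
        exact Iff.rfl
      have e2 : ∀ c m n l, (g' c).2.1 m n = l ↔ g c 1 (![m, n, l] : Fin 3 → ℕ) = true := by
        intro c m n l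
        rw [← hgeq]
        show _ ↔ decide _ = true
        rw [decide_eq_true_iff]
        exact Iff.rfl
      have e3 : ∀ c (t : T) m l, ∃ j, (g' c).2.2 t m = l ↔
          g c (j + 2) (![m, l] : Fin 2 → ℕ) = true := by
        intro c t m l
        obtain ⟨j, hj⟩ := hk (sc t)
        refine ⟨j, ?_⟩
        rw [← hgeq]
        show _ ↔ decide _ = true
        rw [decide_eq_true_iff]
        show _ ↔ ∃ h : ((k j : Subring.closure T) : ℝ) ∈ T, (g' c).2.2 ⟨_, h⟩ m = l
        rw [hj]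
        exact ⟨fun h => ⟨t.2, h⟩, fun ⟨_, h⟩ => h⟩
      have cdisc : ∀ F : (ℕ → Bool) → ℕ, (∀ l, IsOpen {c | F c = l}) → Continuous F := by
        intro F hF
        refine continuous_discrete_rng.2 ?_
        exact hF
      refine Continuous.prodMk ?_ (Continuous.prodMk ?_ ?_)
      · refine continuous_pi fun m => continuous_pi fun n => ?_
        simp only [e1]
        exact hco 0 _
      · refine continuous_pi fun m => continuous_pi fun n => ?_
        refine cdisc _ fun l => ?_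
        simp only [e2]
        exact (isOpen_discrete {true}).preimage (hco 1 _)
      · refine continuous_pi fun t => continuous_pi fun m => ?_
        refine cdisc _ fun l => ?_
        obtain ⟨j, hj⟩ := hk (sc t)
        have e3' : ∀ c, (g' c).2.2 t m = l ↔ g c (j + 2) (![m, l] : Fin 2 → ℕ) = true := by
          intro c
          rw [← hgeq]
          show _ ↔ decide _ = true
          rw [decide_eq_true_iff]
          show _ ↔ ∃ h : ((k j : Subring.closure T) : ℝ) ∈ T, (g' c).2.2 ⟨_, h⟩ m = l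
          rw [hj]
          exact ⟨fun h => ⟨t.2, h⟩, fun ⟨_, h⟩ => h⟩
        simp only [e3']
        exact (isOpen_discrete {true}).preimage (hco (j + 2) _)
    · intro c d h
      refine hg3 c d ?_
      rw [← hg'2 c, ← hg'2 d]
      exact (henciso _ _).2 h

end Pool.Agent.TH783.OV
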