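import Pool.Agent.TH783.OV.Skel

set_option autoImplicit false

/-! Two representations of one ordered module have isomorphic index structures. -/

namespace Pool.Agent.TH783.OV

open Set

variable {K : Subring ℝ} {z z' : Z}

section one

variable {V : Type} [AddCommGroup V] [LinearOrder V] [IsOrderedAddMonoid V] [Module K V]
  {ι ι' : ℕ → V}

theorem Rep.exists_ne (h : Rep (K := K) z ι) (hz : Z0 K z) (m : ℕ) : ∃ n, sm z m n ∧ ι n ≠ 0 := by
  obtain ⟨k, h1, h2⟩ := hz.nz m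
  exact ⟨k, h1, fun h3 => h2 ((h.eq_zero hz).1 h3)⟩

/-- The archimedean class of the block of `m`. -/
noncomputable def cl (z : Z) (ι : ℕ → V) (m : ℕ) : ArchimedeanClass V :=
  open Classical in
  if h : ∃ n, sm z m n ∧ ι n ≠ 0 then ArchimedeanClass.mk (ι h.choose) else ⊤

theorem Rep.cl_eq (h : Rep (K := K) z ι) (hz : Z0 K z) {m n : ℕ} (hs : sm z m n) (hn : ι n ≠ 0) :
    cl z ι m = ArchimedeanClass.mk (ι n) := by
  have h1 := h.exists_ne hz m
  unfold cl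
  rw [dif_pos h1]
  exact h.mk_eq hz (hz.trans h1.choose_spec.1.symm hs) h1.choose_spec.2 hn

theorem Rep.cl_ne (h : Rep (K := K) z ι) (hz : Z0 K z) (m : ℕ) : cl z ι m ≠ ⊤ := by
  obtain ⟨n, h1, h2⟩ := h.exists_ne hz m
  rw [h.cl_eq hz h1 h2, Ne, ArchimedeanClass.mk_eq_top_iff]
  exact h2

theorem Rep.cl_le (h : Rep (K := K) z ι) (hz : Z0 K z) (m : ℕ) :
    cl z ι m ≤ ArchimedeanClass.mk (ι m) := by
  by_cases hm : ι m = 0
  · rw [hm, ArchimedeanClass.mk_zero]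
    exact le_top
  · rw [h.cl_eq hz (hz.refl m) hm]

theorem Rep.cl_congr (h : Rep (K := K) z ι) (hz : Z0 K z) {m n : ℕ} (hs : sm z m n) :
    cl z ι m = cl z ι n := by
  obtain ⟨k, h1, h2⟩ := h.exists_ne hz n
  rw [h.cl_eq hz h1 h2, h.cl_eq hz (hz.trans hs h1) h2]

theorem Rep.cl_lt (h : Rep (K := K) z ι) (hz : Z0 K z) {m n : ℕ} (hs : z.1 m n = true) :
    cl z ι m < cl z ι n := by
  obtain ⟨k, h1, h2⟩ := h.exists_ne hz m
  obtain ⟨j, h3, h4⟩ := h.exists_ne hz n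
  rw [h.cl_eq hz h1 h2, h.cl_eq hz h3 h4]
  exact h.dom k j (hz.lt_of_sm_left h1.symm (hz.lt_of_sm_right hs h3)) h2

theorem Rep.lt_iff (h : Rep (K := K) z ι) (hz : Z0 K z) {m n : ℕ} :
    z.1 m n = true ↔ cl z ι m < cl z ι n := by
  refine ⟨h.cl_lt hz, fun h1 => ?_⟩
  rcases trich (z := z) m n with h2 | h2 | h2
  · exact h2
  · rw [h.cl_congr hz h2] at h1
    exact absurd h1 (lt_irrefl _)
  · exact absurd h1 (h.cl_lt hz h2).not_gt

theorem Rep.sm_iff (h : Rep (K := K) z ι) (hz : Z0 K z) {m n : ℕ} :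
    sm z m n ↔ cl z ι m = cl z ι n := by
  refine ⟨h.cl_congr hz, fun h1 => ?_⟩
  rcases trich (z := z) m n with h2 | h2 | h2
  · exact absurd h1 (h.cl_lt hz h2).ne
  · exact h2
  · exact absurd h1 (h.cl_lt hz h2).ne'

/-- An element of a block whose class is larger than that of the block is zero. -/
theorem Rep.zero_of_lt (h : Rep (K := K) z ι) (hz : Z0 K z) {m : ℕ}
    (h1 : cl z ι m < ArchimedeanClass.mk (ι m)) : ι m = 0 := by
  by_contra hm
  rw [h.cl_eq hz (hz.refl m) hm] at h1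
  exact lt_irrefl _ h1

/-- Differences inside a block. -/
theorem Rep.sub (h : Rep (K := K) z ι) (hz : Z0 K z) {m n : ℕ} (hs : sm z m n) :
    ∃ k, sm z m k ∧ ι k = ι n - ι m := by
  obtain ⟨j, h1, h2⟩ := hz.neg m
  have h3 := h.neg hz h1 h2
  obtain ⟨k, h4, h5⟩ := hz.add j n (hz.trans h1.symm hs)
  refine ⟨k, hz.trans h1 h4, ?_⟩
  rw [← (h.add j n k (hz.trans h1.symm hs) h4).2 h5.symm, h3]
  abel

theorem lt_mk_add {g : ArchimedeanClass V} {v w : V} (h1 : g < ArchimedeanClass.mk v)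
    (h2 : g < ArchimedeanClass.mk w) : g < ArchimedeanClass.mk (v + w) :=
  lt_of_lt_of_le (lt_min h1 h2) (ArchimedeanClass.min_le_mk_add _ _)

theorem lt_mk_neg {g : ArchimedeanClass V} {v : V} (h1 : g < ArchimedeanClass.mk v) :
    g < ArchimedeanClass.mk (-v) := by
  rw [ArchimedeanClass.mk_neg]
  exact h1

theorem mk_eq_of_lt {v w : V} (h : ArchimedeanClass.mk w < ArchimedeanClass.mk (v - w)) :
    ArchimedeanClass.mk v = ArchimedeanClass.mk w := by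
  apply le_antisymm
  · by_contra hc
    rw [not_le] at hc
    have h1 := lt_mk_add hc (lt_mk_neg h)
    have h2 : v + -(v - w) = w := by abel
    rw [h2] at h1
    exact lt_irrefl _ h1
  · have h1 := ArchimedeanClass.min_le_mk_add (v - w) w
    rw [sub_add_cancel, min_eq_right h.le] at h1
    exact h1

/-- The correspondence. -/
def Sg (z : Z) (ι : ℕ → V) (z' : Z) (ι' : ℕ → V) (m m' : ℕ) : Prop :=
  cl z ι m = cl z' ι' m' ∧ cl z ι m < ArchimedeanClass.mk (ι m - ι' m')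

theorem Sg.symm {m m' : ℕ} (h : Sg z ι z' ι' m m') : Sg z' ι' z ι m' m := by
  refine ⟨h.1.symm, ?_⟩
  rw [← h.1, ← neg_sub, ArchimedeanClass.mk_neg]
  exact h.2

theorem Sg.total (h : Rep (K := K) z ι) (hz : Z0 K z) (h' : Rep (K := K) z' ι')
    (hz' : Z0 K z') (m : ℕ) : ∃ m', Sg z ι z' ι' m m' := by
  have key : ∀ n, ι n ≠ 0 → ∃ k', ι' k' ≠ 0 ∧
      ArchimedeanClass.mk (ι' k') < ArchimedeanClass.mk (ι n - ι' k') ∧
      cl z' ι' k' = cl z ι n ∧ ArchimedeanClass.mk (ι' k') = cl z ι n := by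
    intro n hn
    obtain ⟨l, hl⟩ := h'.span (ι n)
    obtain ⟨k', h1, h2⟩ := h'.lead hz' l (by rw [hl]; exact hn)
    rw [hl] at h2
    have h3 := mk_eq_of_lt h2
    have h4 := h'.cl_eq hz' (hz'.refl k') h1
    have h5 := h.cl_eq hz (hz.refl n) hn
    exact ⟨k', h1, h2, by rw [h4, h5, h3], by rw [h5, h3]⟩
  by_cases hm : ι m = 0
  · obtain ⟨n, h1, h2⟩ := h.exists_ne hz m
    obtain ⟨k', -, -, h3, -⟩ := key n h2
    obtain ⟨j', h4, h5⟩ := hz'.zero k'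
    refine ⟨j', ?_, ?_⟩
    · rw [h.cl_congr hz h1, ← h3, h'.cl_congr hz' h4]
    · rw [hm, (h'.eq_zero hz').2 h5, sub_zero, ArchimedeanClass.mk_zero]
      exact lt_top_iff_ne_top.2 (h.cl_ne hz m)
  · obtain ⟨k', -, h2, h3, h4⟩ := key m hm
    exact ⟨k', h3.symm, by rw [← h4]; exact h2⟩

theorem Sg.unique (h : Rep (K := K) z ι) (h' : Rep (K := K) z' ι')
    (hz' : Z0 K z') {m m1 m2 : ℕ} (h1 : Sg z ι z' ι' m m1) (h2 : Sg z ι z' ι' m m2) :
    m1 = m2 := by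
  have hs : sm z' m1 m2 := (h'.sm_iff hz').2 (by rw [← h1.1, ← h2.1])
  rw [← h'.inj hz' hs]
  obtain ⟨k, h3, h4⟩ := h'.sub hz' hs
  have h5 : ι' k = 0 := by
    refine h'.zero_of_lt hz' ?_
    rw [← h'.cl_congr hz' h3, ← h1.1, h4]
    have h6 := lt_mk_add h1.2 (lt_mk_neg h2.2)
    have h7 : ι m - ι' m1 + -(ι m - ι' m2) = ι' m2 - ι' m1 := by abel
    rw [h7] at h6
    exact h6
  rw [h5] at h4
  exact (sub_eq_zero.1 h4.symm).symm

theorem Sg.add_aux (h : Rep (K := K) z ι) (h' : Rep (K := K) z' ι')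
    (hz : Z0 K z) (hz' : Z0 K z') {m n k m' n' k' : ℕ} (hmn : sm z m n) (hmk : sm z m k)
    (h1 : Sg z ι z' ι' m m') (h2 : Sg z ι z' ι' n n') (h3 : Sg z ι z' ι' k k')
    (hs : ι m + ι n = ι k) : ι' m' + ι' n' = ι' k' := by
  have hmn' : sm z' m' n' := (h'.sm_iff hz').2 (by rw [← h1.1, ← h2.1, h.cl_congr hz hmn])
  have hmk' : sm z' m' k' := (h'.sm_iff hz').2 (by rw [← h1.1, ← h3.1, h.cl_congr hz hmk])
  obtain ⟨j, h4, h5⟩ := hz'.add m' n' hmn'
  have h6 := (h'.add m' n' j hmn' h4).2 h5.symm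
  obtain ⟨i, h7, h8⟩ := h'.sub hz' (hz'.trans hmk'.symm h4)
  have h9 : ι' i = 0 := by
    refine h'.zero_of_lt hz' ?_
    rw [← h'.cl_congr hz' h7, ← h'.cl_congr hz' hmk', ← h1.1, h8, ← h6]
    have h2' := h2.2
    have h3' := h3.2
    rw [← h.cl_congr hz hmn] at h2'
    rw [← h.cl_congr hz hmk] at h3'
    have h10 := lt_mk_add (lt_mk_add (lt_mk_neg h1.2) (lt_mk_neg h2')) h3'
    have h11 : -(ι m - ι' m') + -(ι n - ι' n') + (ι k - ι' k') = ι' m' + ι' n' - ι' k' := by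
      rw [← hs]
      abel
    rw [h11] at h10
    exact h10
  rw [h9] at h8
  rw [h6]
  exact (sub_eq_zero.1 h8.symm)

theorem Sg.lt_aux (h : Rep (K := K) z ι) (h' : Rep (K := K) z' ι')
    (hz : Z0 K z) (hz' : Z0 K z') {m n m' n' : ℕ} (hmn : sm z m n)
    (h1 : Sg z ι z' ι' m m') (h2 : Sg z ι z' ι' n n')
    (hs : ι m < ι n) : ι' m' < ι' n' := by
  have hmn' : sm z' m' n' := (h'.sm_iff hz').2 (by rw [← h1.1, ← h2.1, h.cl_congr hz hmn])
  obtain ⟨j, h3, h4⟩ := h.sub hz hmn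
  have h5 : 0 < ι j := by rw [h4]; exact sub_pos.2 hs
  have h6 : ArchimedeanClass.mk (ι j) = cl z ι m := (h.cl_eq hz h3 h5.ne').symm
  have h2' := h2.2
  rw [← h.cl_congr hz hmn] at h2'
  have h7 := lt_mk_add (lt_mk_neg h2') h1.2
  have h8 : -(ι n - ι' n') + (ι m - ι' m') = (ι' n' - ι' m') - ι j := by
    rw [h4]
    abel
  rw [h8, ← h6] at h7
  exact sub_pos.1 (ArchimedeanClass.pos_of_pos_of_mk_lt h5 h7)

theorem Sg.smul_aux (hsm : ∀ (s : K) (v : V), ArchimedeanClass.mk v ≤ ArchimedeanClass.mk (s • v))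
    (h : Rep (K := K) z ι) (h' : Rep (K := K) z' ι')
    (hz : Z0 K z) (hz' : Z0 K z') {m n m' n' : ℕ} (hmn : sm z m n)
    (h1 : Sg z ι z' ι' m m') (h2 : Sg z ι z' ι' n n') (s : K)
    (hs : s • ι m = ι n) : s • ι' m' = ι' n' := by
  have hmn' : sm z' m' n' := (h'.sm_iff hz').2 (by rw [← h1.1, ← h2.1, h.cl_congr hz hmn])
  obtain ⟨j, h4, h5⟩ := hz'.smul s s.2 m'
  have h6 := (h'.smul m' j h4 s).2 h5.symm
  obtain ⟨i, h7, h8⟩ := h'.sub hz' (hz'.trans hmn'.symm h4)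
  have h9 : ι' i = 0 := by
    refine h'.zero_of_lt hz' ?_
    rw [← h'.cl_congr hz' h7, ← h'.cl_congr hz' hmn', ← h1.1, h8, ← h6]
    have h2' := h2.2
    rw [← h.cl_congr hz hmn] at h2'
    have h10 : cl z ι m < ArchimedeanClass.mk (s • (ι m - ι' m')) := lt_of_lt_of_le h1.2 (hsm _ _)
    have h11 := lt_mk_add (lt_mk_neg h10) h2'
    have h12 : -(s • (ι m - ι' m')) + (ι n - ι' n') = s • ι' m' - ι' n' := by
      rw [← hs, smul_sub]
      abel
    rw [h12] at h11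
    exact h11
  rw [h9] at h8
  rw [h6]
  exact (sub_eq_zero.1 h8.symm)

theorem skel (hsm : ∀ (s : K) (v : V), ArchimedeanClass.mk v ≤ ArchimedeanClass.mk (s • v))
    (h : Rep (K := K) z ι) (hz : Z0 K z) (h' : Rep (K := K) z' ι') (hz' : Z0 K z') :
    ∃ σ : Equiv.Perm ℕ, ZIso K z z' σ := by
  choose f hf using Sg.total h hz h' hz'
  choose g hg using Sg.total h' hz' h hz
  have h1 : ∀ m, g (f m) = m := fun m => Sg.unique h' h hz (hg (f m)) (hf m).symm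
  have h2 : ∀ m, f (g m) = m := fun m => Sg.unique h h' hz' (hf (g m)) (hg m).symm
  have hcl : ∀ m, cl z' ι' (f m) = cl z ι m := fun m => (hf m).1.symm
  have hsm' : ∀ m n, sm z m n → sm z' (f m) (f n) := fun m n hs =>
    (h'.sm_iff hz').2 (by rw [hcl, hcl, h.cl_congr hz hs])
  refine ⟨⟨f, g, h1, h2⟩, ?_, ?_, ?_, ?_⟩
  · intro m n
    rw [Bool.eq_iff_iff]
    show z'.1 (f m) (f n) = true ↔ _
    rw [h'.lt_iff hz', h.lt_iff hz, hcl, hcl]
  · intro m n k hmn hmk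
    show z'.2 (f m) + z'.2 (f n) = z'.2 (f k) ↔ _
    rw [← h.add m n k hmn hmk, ← h'.add _ _ _ (hsm' m n hmn) (hsm' m k hmk)]
    constructor
    · exact Sg.add_aux h' h hz' hz (hsm' m n hmn) (hsm' m k hmk) (hf m).symm (hf n).symm
        (hf k).symm
    · exact Sg.add_aux h h' hz hz' hmn hmk (hf m) (hf n) (hf k)
  · intro m n hmn
    show z'.2 (f m) < z'.2 (f n) ↔ _
    rw [← h.lt m n hmn, ← h'.lt _ _ (hsm' m n hmn)]
    constructor
    · exact Sg.lt_aux h' h hz' hz (hsm' m n hmn) (hf m).symm (hf n).symm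
    · exact Sg.lt_aux h h' hz hz' hmn (hf m) (hf n)
  · intro m n hmn s
    show (s : ℝ) * z'.2 (f m) = z'.2 (f n) ↔ _
    rw [← h.smul m n hmn, ← h'.smul _ _ (hsm' m n hmn)]
    constructor
    · exact Sg.smul_aux hsm h' h hz' hz (hsm' m n hmn) (hf m).symm (hf n).symm s
    · exact Sg.smul_aux hsm h h' hz hz' hmn (hf m) (hf n) s

end one

end Pool.Agent.TH783.OV
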