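import Pool.Agent.TH783.OV.Vcd
import Pool.Agent.TH783.OV.Skel2
import Pool.Agent.TH783.OV.Dec
import Pool.Agent.TH783.OV.Ex

set_option autoImplicit false
set_option linter.unusedSectionVars false

/-! Vaught's conjecture for ordered modules. -/

namespace Pool.Agent.TH783.OV

open Set MeasureTheory
open Pool.Agent.H533R2.VO (RS RIso Dich)
open Pool.Agent.H899R2.VP (St)
open Pool.Agent.TH783.TR

/-- Structures on `ℕ` for the language with `<`, `+` and a unary function for every `t ∈ T`. -/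
abbrev XT (T : Set ℝ) : Type := (ℕ → ℕ → Bool) × (ℕ → ℕ → ℕ) × (T → ℕ → ℕ)

/-- Isomorphism. -/
def IsoX {T : Set ℝ} (x x' : XT T) : Prop := ∃ σ : Equiv.Perm ℕ,
  (∀ m n, x'.1 (σ m) (σ n) = x.1 m n) ∧ (∀ m n, x'.2.1 (σ m) (σ n) = σ (x.2.1 m n)) ∧
  ∀ (t : T) (m : ℕ), x'.2.2 t (σ m) = σ (x.2.2 t m)

/-- The scalar `t`. -/
def sc {T : Set ℝ} (t : T) : Subring.closure T := ⟨t, Subring.subset_closure t.2⟩

/-- `x` is a copy of `V`. -/
structure Cp {T : Set ℝ} (x : XT T) {V : Type} [AddCommGroup V] [LinearOrder V]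
    [Module (Subring.closure T) V] (e : ℕ ≃ V) : Prop where
  lt : ∀ m n, x.1 m n = true ↔ e m < e n
  add : ∀ m n, e (x.2.1 m n) = e m + e n
  smul : ∀ (t : T) (m : ℕ), e (x.2.2 t m) = sc t • e m

variable {T : Set ℝ}

instance countable_closure [Countable T] : Countable (Subring.closure T) := by
  have h1 : (Subring.closure T : Set ℝ) ⊆ (Subfield.closure T : Set ℝ) := by
    have : Subring.closure T ≤ (Subfield.closure T).toSubring :=
      Subring.closure_le.2 Subfield.subset_closure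
    exact this
  have h2 : Countable (Subfield.closure T) := by
    rw [← Cardinal.mk_le_aleph0_iff]
    refine (Subfield.cardinalMk_closure_le_max T).trans ?_
    exact max_le (Cardinal.mk_le_aleph0_iff.2 inferInstance) le_rfl
  exact Set.Countable.to_subtype ((Set.countable_coe_iff.1 h2).mono h1)

section iso

variable {V V' : Type} [AddCommGroup V] [LinearOrder V] [IsOrderedAddMonoid V]
  [Module (Subring.closure T) V] [AddCommGroup V'] [LinearOrder V'] [IsOrderedAddMonoid V']
  [Module (Subring.closure T) V']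

theorem iso_iff {x x' : XT T} {e : ℕ ≃ V} {e' : ℕ ≃ V'} (h : Cp x e) (h' : Cp x' e') :
    IsoX x x' ↔ ∃ θ : V ≃ V', (∀ v w, θ (v + w) = θ v + θ w) ∧ (∀ v w, θ v < θ w ↔ v < w) ∧
      ∀ (s : Subring.closure T) (v : V), θ (s • v) = s • θ v := by
  constructor
  · rintro ⟨σ, h1, h2, h3⟩
    have hθ : ∀ m, ((e.symm.trans σ).trans e') (e m) = e' (σ m) := by
      intro m
      simp
    have hadd : ∀ v w, ((e.symm.trans σ).trans e') (v + w) =
        ((e.symm.trans σ).trans e') v + ((e.symm.trans σ).trans e') w := by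
      intro v w
      obtain ⟨m, rfl⟩ := e.surjective v
      obtain ⟨n, rfl⟩ := e.surjective w
      rw [← h.add, hθ, hθ, hθ, ← h2, h'.add]
    refine ⟨(e.symm.trans σ).trans e', hadd, ?_, ?_⟩
    · intro v w
      obtain ⟨m, rfl⟩ := e.surjective v
      obtain ⟨n, rfl⟩ := e.surjective w
      rw [hθ, hθ, ← h.lt, ← h'.lt, h1]
    · rintro ⟨s, hs⟩ v
      have hzero : ((e.symm.trans σ).trans e') 0 = 0 := by
        have := hadd 0 0
        rw [add_zero] at this
        exact left_eq_add.1 this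
      induction hs using Subring.closure_induction generalizing v with
      | mem t ht =>
        obtain ⟨m, rfl⟩ := e.surjective v
        have h4 := h.smul ⟨t, ht⟩ m
        have h5 := h'.smul ⟨t, ht⟩ (σ m)
        rw [h3] at h5
        unfold sc at h4 h5
        rw [← h4, hθ, hθ, h5]
      | zero =>
        have h4 : (⟨0, Subring.zero_mem _⟩ : Subring.closure T) = 0 := rfl
        rw [h4, zero_smul, zero_smul, hzero]
      | one =>
        have h4 : (⟨1, Subring.one_mem _⟩ : Subring.closure T) = 1 := rfl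
        rw [h4, one_smul, one_smul]
      | add a b ha hb iha ihb =>
        have h4 : (⟨a + b, Subring.add_mem _ ha hb⟩ : Subring.closure T) = ⟨a, ha⟩ + ⟨b, hb⟩ := rfl
        rw [h4, add_smul, add_smul, hadd, iha, ihb]
      | neg a ha iha =>
        have h4 : (⟨-a, Subring.neg_mem _ ha⟩ : Subring.closure T) = -⟨a, ha⟩ := rfl
        rw [h4, neg_smul, neg_smul, ← iha]
        apply eq_neg_of_add_eq_zero_left
        rw [← hadd, neg_add_cancel, hzero]
      | mul a b ha hb iha ihb =>
        have h4 : (⟨a * b, Subring.mul_mem _ ha hb⟩ : Subring.closure T) = ⟨a, ha⟩ * ⟨b, hb⟩ := rfl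
        rw [h4, mul_smul, mul_smul, iha, ihb]
  · rintro ⟨θ, h1, h2, h3⟩
    have hθ : ∀ m, e' (((e.trans θ).trans e'.symm) m) = θ (e m) := by
      intro m
      simp
    refine ⟨(e.trans θ).trans e'.symm, ?_, ?_, ?_⟩
    · intro m n
      rw [Bool.eq_iff_iff, h'.lt, h.lt, hθ, hθ, h2]
    · intro m n
      apply e'.injective
      rw [h'.add, hθ, hθ, hθ, h.add, h1]
    · intro t m
      apply e'.injective
      rw [h'.smul, hθ, hθ, h.smul, h3]

end iso

/-- Lists coded by natural numbers. -/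
def dl (j : ℕ) : List ℕ := Denumerable.ofNat (List ℕ) j

theorem dl_surj (l : List ℕ) : ∃ j, dl j = l := ⟨Encodable.encode l, Denumerable.ofNat_encode l⟩

/-- `x` is the lexicographic sum coded by `z`, the element `n` being the sum of the list coded by
`h n`. -/
structure Rr (x : XT T) (z : Z) (h : ℕ → ℕ) : Prop where
  z0 : Z0 (Subring.closure T) z
  lt : ∀ m n, x.1 m n = true ↔ LT z (dl (h m)) (dl (h n))
  add : ∀ m n, EQ z (dl (h (x.2.1 m n))) (dl (h m) ++ dl (h n))
  smul : ∀ (t : T) m, SM z t (dl (h m)) (dl (h (x.2.2 t m)))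
  inj : ∀ m n, EQ z (dl (h m)) (dl (h n)) → m = n
  surj : ∀ j, ∃ n, EQ z (dl (h n)) (dl j)

section rr

variable {V : Type} [AddCommGroup V] [LinearOrder V] [IsOrderedAddMonoid V]
  [Module (Subring.closure T) V] {z : Z} {ι : ℕ → V} {x : XT T}

theorem Rr.copy {h : ℕ → ℕ} (hr : Rr x z h) (hR : Rep (K := Subring.closure T) z ι)
    (hlt : ∀ l l' : List ℕ, ((l.map ι).sum < (l'.map ι).sum ↔ LT z l l'))
    (heq : ∀ l l' : List ℕ, ((l.map ι).sum = (l'.map ι).sum ↔ EQ z l l'))
    (hsm : ∀ (s : Subring.closure T) (l l' : List ℕ),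
      (s • (l.map ι).sum = (l'.map ι).sum ↔ SM z s l l')) : ∃ e : ℕ ≃ V, Cp x e := by
  have hb : Function.Bijective fun n => ((dl (h n)).map ι).sum := by
    constructor
    · intro m n hmn
      exact hr.inj m n ((heq _ _).1 hmn)
    · intro v
      obtain ⟨l, rfl⟩ := hR.span v
      obtain ⟨j, rfl⟩ := dl_surj l
      obtain ⟨n, hn⟩ := hr.surj j
      exact ⟨n, (heq _ _).2 hn⟩
  refine ⟨Equiv.ofBijective _ hb, ?_, ?_, ?_⟩
  · intro m n
    rw [hr.lt, ← hlt]
    rfl
  · intro m n
    have := (heq _ _).2 (hr.add m n)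
    rw [List.map_append, List.sum_append] at this
    exact this
  · intro t m
    exact ((hsm (sc t) _ _).2 (hr.smul t m)).symm

theorem Cp.rr {e : ℕ ≃ V} (he : Cp x e) (hz : Z0 (Subring.closure T) z)
    (hR : Rep (K := Subring.closure T) z ι)
    (hlt : ∀ l l' : List ℕ, ((l.map ι).sum < (l'.map ι).sum ↔ LT z l l'))
    (heq : ∀ l l' : List ℕ, ((l.map ι).sum = (l'.map ι).sum ↔ EQ z l l'))
    (hsm : ∀ (s : Subring.closure T) (l l' : List ℕ),
      (s • (l.map ι).sum = (l'.map ι).sum ↔ SM z s l l')) : ∃ h : ℕ → ℕ, Rr x z h := by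
  have h1 : ∀ n, ∃ j, ((dl j).map ι).sum = e n := by
    intro n
    obtain ⟨l, hl⟩ := hR.span (e n)
    obtain ⟨j, rfl⟩ := dl_surj l
    exact ⟨j, hl⟩
  choose h hh using h1
  refine ⟨h, hz, ?_, ?_, ?_, ?_, ?_⟩
  · intro m n
    rw [← hlt, hh, hh, he.lt]
  · intro m n
    rw [← heq, List.map_append, List.sum_append, hh, hh, hh, he.add]
  · intro t m
    have := (hsm (sc t) (dl (h m)) (dl (h (x.2.2 t m)))).1 (by rw [hh, hh, he.smul])
    exact this
  · intro m n hmn
    rw [← heq, hh, hh] at hmn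
    exact e.injective hmn
  · intro j
    obtain ⟨n, hn⟩ := e.surjective ((dl j).map ι).sum
    exact ⟨n, by rw [← heq, hh, hn]⟩

end rr

/-! ### Measurability -/

theorem mev {X : Type} [MeasurableSpace X] {Q : X → ℕ → Prop} (hQ : ∀ j, Measurable fun w => Q w j)
    {g : X → ℕ} (hg : Measurable g) : Measurable fun w => Q w (g w) := by
  rw [← measurableSet_setOfPred]
  have : {w | Q w (g w)} = ⋃ j, {w | g w = j} ∩ {w | Q w j} := by
    ext w
    simp
  rw [this]
  exact MeasurableSet.iUnion fun j =>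
    (hg (measurableSet_singleton j)).inter (measurableSet_setOfPred.2 (hQ j))

theorem mSm (l : List ℕ) (m : ℕ) : Measurable fun z : Z => Sm z l m := by
  classical
  unfold Sm
  induction l with
  | nil => exact measurable_const
  | cons i l ih =>
    simp only [List.map_cons, List.sum_cons]
    refine Measurable.add ?_ ih
    exact Measurable.ite (measurableSet_setOfPred.2 (msm m i)) (m2 i) measurable_const

theorem mLT (l l' : List ℕ) : Measurable fun z : Z => LT z l l' :=
  Measurable.exists fun m => Measurable.and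
    (Measurable.forall fun n => (m1 n m true).imp (meq (mSm l n) (mSm l' n)))
    (mlt (mSm l m) (mSm l' m))

theorem mEQ (l l' : List ℕ) : Measurable fun z : Z => EQ z l l' :=
  Measurable.forall fun m => meq (mSm l m) (mSm l' m)

theorem mSM (s : ℝ) (l l' : List ℕ) : Measurable fun z : Z => SM z s l l' :=
  Measurable.forall fun m => meq ((mSm l m).const_mul s) (mSm l' m)

theorem mRr [Countable T] : MeasurableSet {w : XT T × Z × (ℕ → ℕ) | Rr w.1 w.2.1 w.2.2} := by
  have h : ∀ w : XT T × Z × (ℕ → ℕ), Rr w.1 w.2.1 w.2.2 ↔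
      (Z0 (Subring.closure T) w.2.1 ∧
      (∀ m n, w.1.1 m n = true ↔ LT w.2.1 (dl (w.2.2 m)) (dl (w.2.2 n))) ∧
      (∀ m n, EQ w.2.1 (dl (w.2.2 (w.1.2.1 m n))) (dl (w.2.2 m) ++ dl (w.2.2 n))) ∧
      (∀ (t : T) m, SM w.2.1 t (dl (w.2.2 m)) (dl (w.2.2 (w.1.2.2 t m)))) ∧
      (∀ m n, EQ w.2.1 (dl (w.2.2 m)) (dl (w.2.2 n)) → m = n) ∧
      (∀ j, ∃ n, EQ w.2.1 (dl (w.2.2 n)) (dl j))) :=
    fun w => ⟨fun h => ⟨h.z0, h.lt, h.add, h.smul, h.inj, h.surj⟩,
      fun ⟨h1, h2, h3, h4, h5, h6⟩ => ⟨h1, h2, h3, h4, h5, h6⟩⟩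
  simp only [h]
  rw [measurableSet_setOfPred]
  have hz : Measurable fun w : XT T × Z × (ℕ → ℕ) => w.2.1 := measurable_fst.comp measurable_snd
  have hh : ∀ m, Measurable fun w : XT T × Z × (ℕ → ℕ) => w.2.2 m := fun m =>
    measurable_pi_iff.1 (measurable_snd.comp measurable_snd) m
  have hx1 : ∀ m n, Measurable fun w : XT T × Z × (ℕ → ℕ) => w.1.1 m n := fun m n =>
    measurable_pi_iff.1 (measurable_pi_iff.1 (measurable_fst.comp measurable_fst) m) n
  have hx2 : ∀ m n, Measurable fun w : XT T × Z × (ℕ → ℕ) => w.1.2.1 m n := fun m n =>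
    measurable_pi_iff.1 (measurable_pi_iff.1
      ((measurable_fst.comp measurable_snd).comp measurable_fst) m) n
  have hx3 : ∀ (t : T) n, Measurable fun w : XT T × Z × (ℕ → ℕ) => w.1.2.2 t n := fun m n =>
    measurable_pi_iff.1 (measurable_pi_iff.1
      ((measurable_snd.comp measurable_snd).comp measurable_fst) m) n
  have hEQ : ∀ {f g : XT T × Z × (ℕ → ℕ) → ℕ}, Measurable f → Measurable g →
      ∀ (F : ℕ → List ℕ) (G : ℕ → List ℕ), Measurable fun w => EQ w.2.1 (F (f w)) (G (g w)) := by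
    intro f g hf hg F G
    refine mev (Q := fun w j => EQ w.2.1 (F j) (G (g w))) (fun j => ?_) hf
    refine mev (Q := fun w i => EQ w.2.1 (F j) (G i)) (fun i => ?_) hg
    exact (mEQ (F j) (G i)).comp hz
  have hhx : ∀ m n, Measurable fun w : XT T × Z × (ℕ → ℕ) => w.2.2 (w.1.2.1 m n) := by
    intro m n
    refine measurable_to_countable' fun j => ?_
    have hQ : ∀ i, Measurable fun w : XT T × Z × (ℕ → ℕ) => w.2.2 i = j := fun i =>
      measurableSet_setOfPred.1 ((hh i) (measurableSet_singleton j))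
    have hm := mev (Q := fun (w : XT T × Z × (ℕ → ℕ)) i => w.2.2 i = j) hQ (hx2 m n)
    exact measurableSet_setOfPred.2 hm
  have hhx3 : ∀ (t : T) n, Measurable fun w : XT T × Z × (ℕ → ℕ) => w.2.2 (w.1.2.2 t n) := by
    intro m n
    refine measurable_to_countable' fun j => ?_
    have hQ : ∀ i, Measurable fun w : XT T × Z × (ℕ → ℕ) => w.2.2 i = j := fun i =>
      measurableSet_setOfPred.1 ((hh i) (measurableSet_singleton j))
    have hm := mev (Q := fun (w : XT T × Z × (ℕ → ℕ)) i => w.2.2 i = j) hQ (hx3 m n)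
    exact measurableSet_setOfPred.2 hm
  refine Measurable.and ?_ (Measurable.and ?_ (Measurable.and ?_ (Measurable.and ?_
    (Measurable.and ?_ ?_))))
  · exact (measurableSet_setOfPred.1 meas_Z0).comp hz
  · refine Measurable.forall fun m => Measurable.forall fun n => Measurable.iff ?_ ?_
    · exact measurableSet_setOfPred.1 ((hx1 m n) (measurableSet_singleton true))
    · refine mev (Q := fun w j => LT w.2.1 (dl j) (dl (w.2.2 n))) (fun j => ?_) (hh m)
      refine mev (Q := fun w i => LT w.2.1 (dl j) (dl i)) (fun i => ?_) (hh n)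
      exact (mLT (dl j) (dl i)).comp hz
  · refine Measurable.forall fun m => Measurable.forall fun n => ?_
    refine mev (Q := fun w j => EQ w.2.1 (dl j) (dl (w.2.2 m) ++ dl (w.2.2 n)))
      (fun j => ?_) (hhx m n)
    refine mev (Q := fun w i => EQ w.2.1 (dl j) (dl i ++ dl (w.2.2 n))) (fun i => ?_) (hh m)
    refine mev (Q := fun w i' => EQ w.2.1 (dl j) (dl i ++ dl i')) (fun i' => ?_) (hh n)
    exact (mEQ (dl j) (dl i ++ dl i')).comp hz
  · refine Measurable.forall fun t => Measurable.forall fun m => ?_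
    refine mev (Q := fun w j => SM w.2.1 t (dl (w.2.2 m)) (dl j)) (fun j => ?_) (hhx3 t m)
    refine mev (Q := fun w i => SM w.2.1 t (dl i) (dl j)) (fun i => ?_) (hh m)
    exact (mSM t (dl i) (dl j)).comp hz
  · exact Measurable.forall fun m => Measurable.forall fun n =>
      (hEQ (hh m) (hh n) dl dl).imp measurable_const
  · exact Measurable.forall fun j => Measurable.exists fun n =>
      hEQ (hh n) (g := fun _ => 0) measurable_const dl (fun _ => dl j)

/-- The relations of a structure. -/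
def PX (x : XT T) : PR (Subring.closure T) :=
  (fun m n => x.1 m n = true, fun m n l => x.2.1 m n = l,
    fun s m n => ∃ h : (s : ℝ) ∈ T, x.2.2 ⟨s, h⟩ m = n)

theorem PX_iso {x x' : XT T} (σ : Equiv.Perm ℕ) :
    ((∀ m n, (PX x').1 (σ m) (σ n) ↔ (PX x).1 m n) ∧
    (∀ m n l, (PX x').2.1 (σ m) (σ n) (σ l) ↔ (PX x).2.1 m n l) ∧
    ∀ s m n, (PX x').2.2 s (σ m) (σ n) ↔ (PX x).2.2 s m n) ↔
    ((∀ m n, x'.1 (σ m) (σ n) = x.1 m n) ∧ (∀ m n, x'.2.1 (σ m) (σ n) = σ (x.2.1 m n)) ∧
      ∀ (t : T) (m : ℕ), x'.2.2 t (σ m) = σ (x.2.2 t m)) := by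
  constructor
  · rintro ⟨h1, h2, h3⟩
    refine ⟨?_, ?_, ?_⟩
    · intro m n
      rw [Bool.eq_iff_iff]
      exact h1 m n
    · intro m n
      exact (h2 m n (x.2.1 m n)).2 rfl
    · intro t m
      obtain ⟨h4, h5⟩ := (h3 (sc t) m (x.2.2 t m)).2 ⟨t.2, rfl⟩
      exact h5
  · rintro ⟨h1, h2, h3⟩
    refine ⟨?_, ?_, ?_⟩
    · intro m n
      show x'.1 (σ m) (σ n) = true ↔ x.1 m n = true
      rw [h1]
    · intro m n l
      show x'.2.1 (σ m) (σ n) = σ l ↔ x.2.1 m n = l
      rw [h2, σ.injective.eq_iff]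
    · intro s m n
      constructor
      · rintro ⟨h4, h5⟩
        rw [h3, σ.injective.eq_iff] at h5
        exact ⟨h4, h5⟩
      · rintro ⟨h4, h5⟩
        refine ⟨h4, ?_⟩
        rw [h3, σ.injective.eq_iff]
        exact h5

theorem PX_inj {x x' : XT T} (h : PX x = PX x') : x = x' := by
  have h1 := (PX_iso (x := x) (x' := x') 1).1 (by
    rw [h]
    exact ⟨fun _ _ => Iff.rfl, fun _ _ _ => Iff.rfl, fun _ _ _ => Iff.rfl⟩)
  obtain ⟨h2, h3, h4⟩ := h1
  refine Prod.ext ?_ (Prod.ext ?_ ?_)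
  · funext m n
    exact (h2 m n).symm
  · funext m n
    exact (h3 m n).symm
  · funext t m
    exact (h4 t m).symm

theorem enc_meas (k : ℕ → Subring.closure T) : Measurable fun x : XT T => mkRS k (PX x) := by
  refine mkRS_meas k ?_ ?_ ?_
  · intro m n
    have h : Measurable fun x : XT T => x.1 m n :=
      measurable_pi_iff.1 (measurable_pi_iff.1 measurable_fst m) n
    exact measurableSet_setOfPred.1 (h (measurableSet_singleton true))
  · intro m n l
    have h : Measurable fun x : XT T => x.2.1 m n :=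
      measurable_pi_iff.1 (measurable_pi_iff.1 (measurable_fst.comp measurable_snd) m) n
    exact measurableSet_setOfPred.1 (h (measurableSet_singleton l))
  · intro s m n
    by_cases hs : (s : ℝ) ∈ T
    · have h : Measurable fun x : XT T => x.2.2 ⟨s, hs⟩ m :=
        measurable_pi_iff.1 (measurable_pi_iff.1 (measurable_snd.comp measurable_snd) _) m
      have h2 : (fun x : XT T => (PX x).2.2 s m n) = fun x => x.2.2 ⟨s, hs⟩ m = n := by
        funext x
        apply propext
        exact ⟨fun ⟨_, h3⟩ => h3, fun h3 => ⟨hs, h3⟩⟩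
      rw [h2]
      exact measurableSet_setOfPred.1 (h (measurableSet_singleton n))
    · have h2 : (fun x : XT T => (PX x).2.2 s m n) = fun _ => False := by
        funext x
        apply propext
        exact ⟨fun ⟨h3, _⟩ => hs h3, False.elim⟩
      rw [h2]
      exact measurable_const

end Pool.Agent.TH783.OV
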