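import Pool.Agent.TH783.OV.Code

set_option autoImplicit false
set_option linter.unusedSectionVars false

/-! Measurability of the codes, and the dichotomy for one block. -/

namespace Pool.Agent.TH783.OV

open Set MeasureTheory
open Pool.Agent.H533R2.VO (RS RIso Dich VC lift OS Ic BlkV)
open Pool.Agent.H899R2.VP (St Adj PIso BF IsoOn BF_iff labels zipSet)
open Pool.Agent.TH783.TR

variable {K : Subring ℝ}

theorem m1 (m n : ℕ) (b : Bool) : Measurable fun z : Z => z.1 m n = b := by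
  rw [← measurableSet_setOfPred]
  have h : Measurable fun z : Z => z.1 m n :=
    measurable_pi_iff.1 (measurable_pi_iff.1 measurable_fst m) n
  exact h (measurableSet_singleton b)

theorem m2 (m : ℕ) : Measurable fun z : Z => z.2 m := (measurable_pi_apply m).comp measurable_snd

theorem meq {f g : Z → ℝ} (hf : Measurable f) (hg : Measurable g) :
    Measurable fun z => f z = g z := by
  rw [← measurableSet_setOfPred]
  exact measurableSet_eq_fun hf hg

theorem mlt {f g : Z → ℝ} (hf : Measurable f) (hg : Measurable g) :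
    Measurable fun z => f z < g z := by
  rw [← measurableSet_setOfPred]
  exact measurableSet_lt hf hg

theorem mle {f g : Z → ℝ} (hf : Measurable f) (hg : Measurable g) :
    Measurable fun z => f z ≤ g z := by
  rw [← measurableSet_setOfPred]
  exact measurableSet_le hf hg

theorem msm (m n : ℕ) : Measurable fun z : Z => sm z m n := (m1 m n false).and (m1 n m false)

theorem meas_Z0 [Countable K] : MeasurableSet {z : Z | Z0 K z} := by
  have h : ∀ z : Z, Z0 K z ↔ ((∀ m, z.1 m m = false) ∧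
      (∀ m n k, z.1 m n = true → z.1 n k = true → z.1 m k = true) ∧
      (∀ m n k, z.1 m k = true → z.1 m n = true ∨ z.1 n k = true) ∧
      (∀ m n, sm z m n → z.2 m = z.2 n → m = n) ∧
      (∀ m n, sm z m n → ∃ k, sm z m k ∧ z.2 k = z.2 m + z.2 n) ∧
      (∀ (s : K) (m : ℕ), ∃ k, sm z m k ∧ z.2 k = s * z.2 m) ∧
      (∀ m, ∃ k, sm z m k ∧ z.2 k ≠ 0)) := by
    intro z
    constructor
    · intro h
      exact ⟨h.irr, h.tr, h.wk, h.inj, h.add, fun s m => h.smul s s.2 m, h.nz⟩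
    · rintro ⟨h1, h2, h3, h4, h5, h6, h7⟩
      exact ⟨h1, h2, h3, h4, h5, fun s hs m => h6 ⟨s, hs⟩ m, h7⟩
  simp only [h]
  rw [measurableSet_setOfPred]
  refine Measurable.and ?_ (Measurable.and ?_ (Measurable.and ?_ (Measurable.and ?_
    (Measurable.and ?_ (Measurable.and ?_ ?_)))))
  · exact Measurable.forall fun m => m1 m m false
  · exact Measurable.forall fun m => Measurable.forall fun n => Measurable.forall fun k =>
      (m1 _ _ _).imp ((m1 _ _ _).imp (m1 _ _ _))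
  · exact Measurable.forall fun m => Measurable.forall fun n => Measurable.forall fun k =>
      (m1 _ _ _).imp ((m1 _ _ _).or (m1 _ _ _))
  · exact Measurable.forall fun m => Measurable.forall fun n =>
      (msm _ _).imp ((meq (m2 _) (m2 _)).imp measurable_const)
  · exact Measurable.forall fun m => Measurable.forall fun n =>
      (msm _ _).imp (Measurable.exists fun k => (msm _ _).and (meq (m2 _) ((m2 _).add (m2 _))))
  · exact Measurable.forall fun s => Measurable.forall fun m =>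
      Measurable.exists fun k => (msm _ _).and (meq (m2 _) ((m2 _).const_mul _))
  · exact Measurable.forall fun m =>
      Measurable.exists fun k => (msm _ _).and (meq (m2 _) measurable_const).not

theorem meas_Nm : MeasurableSet {z : Z | Nm z} := by
  unfold Nm
  rw [measurableSet_setOfPred]
  refine Measurable.forall fun m => Measurable.imp (Measurable.and ?_ ?_) ?_
  · exact mlt measurable_const (m2 _)
  · exact Measurable.forall fun n => Measurable.imp measurable_const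
      ((msm _ _).imp (mle (m2 _) measurable_const))
  · exact meq (m2 _) measurable_const

theorem mdec {X : Type} [MeasurableSpace X] {p : X → Prop} (hp : Measurable p)
    (h : ∀ x, Decidable (p x)) : Measurable fun x => @decide (p x) (h x) := by
  apply measurable_to_bool
  have : (fun x => @decide (p x) (h x)) ⁻¹' {true} = {x | p x} := by
    ext x
    simp
  rw [this]
  exact measurableSet_setOfPred.2 hp

theorem mkRS_meas {X : Type} [MeasurableSpace X] {P : X → PR K} (k : ℕ → K)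
    (h1 : ∀ m n, Measurable fun x => (P x).1 m n) (h2 : ∀ m n l, Measurable fun x => (P x).2.1 m n l)
    (h3 : ∀ s m n, Measurable fun x => (P x).2.2 s m n) : Measurable fun x => mkRS k (P x) := by
  refine measurable_pi_iff.2 fun i => measurable_pi_iff.2 fun t => ?_
  match i, t with
  | 0, t => exact mdec (h1 _ _) _
  | 1, t => exact mdec (h2 _ _ _) _
  | j + 2, t => exact mdec (h3 _ _ _) _

theorem Ph_meas (k : ℕ → K) : Measurable (Ph k) := by
  refine Measurable.prodMk measurable_fst (mkRS_meas k ?_ ?_ ?_)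
  · exact fun m n => (msm _ _).and (mlt (m2 _) (m2 _))
  · exact fun m n l => (msm _ _).and ((msm _ _).and (meq ((m2 _).add (m2 _)) (m2 _)))
  · exact fun s m n => (msm _ _).and (meq ((m2 _).const_mul _) (m2 _))

theorem D_meas [Countable K] {k : ℕ → K} (hk : Function.Surjective k) :
    MeasurableSet (Ph k '' {z : Z | Z0 K z}) := by
  have h1 : Ph k '' {z : Z | Z0 K z} = Ph k '' ({z : Z | Z0 K z} ∩ {z : Z | Nm z}) := by
    apply Subset.antisymm
    · rintro M ⟨z, hz, rfl⟩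
      obtain ⟨z', h1, h2, h3⟩ := exists_nm k hz
      exact ⟨z', ⟨h1, h2⟩, h3⟩
    · exact image_mono inter_subset_left
  rw [h1]
  refine (meas_Z0.inter meas_Nm).image_of_measurable_injOn (Ph_meas k) ?_
  rintro z ⟨h2, h3⟩ z' ⟨h4, h5⟩ h6
  exact nm_inj hk h2 h4 h3 h5 h6

/-! ### One block -/

/-- Codes of one block. -/
def VB (k : ℕ → K) (x : RS ar) : Prop :=
  ∃ z : Z, Z0 K z ∧ z.1 = (fun _ _ => false) ∧ x = mkRS k (PZ K z)

theorem piso_PR {k : ℕ → K} (hk : Function.Surjective k) {P P' : PR K} {r : Set (ℕ × ℕ)}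
    (h : PIso (lift (mkRS k P)) (lift (mkRS k P')) r) :
    (∀ u ∈ r, ∀ v ∈ r, (P.1 u.1 v.1 ↔ P'.1 u.2 v.2)) ∧
    ∀ s, ∀ u ∈ r, ∀ v ∈ r, (P.2.2 s u.1 v.1 ↔ P'.2.2 s u.2 v.2) := by
  rw [lift_piso] at h
  constructor
  · intro u hu v hv
    have := h.2 0 ![u, v] (by
      intro j
      change Fin 2 at j
      match j with
      | 0 => exact hu
      | 1 => exact hv)
    simp only [mkRS, decide_eq_decide] at this
    exact this
  · intro s u hu v hv
    obtain ⟨j, rfl⟩ := hk s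
    have := h.2 (j + 2) ![u, v] (by
      intro j
      change Fin 2 at j
      match j with
      | 0 => exact hu
      | 1 => exact hv)
    simp only [mkRS, decide_eq_decide] at this
    exact this

theorem ratio_BF {k : ℕ → K} (hk : Function.Surjective k) {z z' : Z} (hz : Z0 K z)
    (h1 : z.1 = fun _ _ => false) (h1' : z'.1 = fun _ _ => false)
    {q : Set (ℕ × ℕ)} {p p' m m' : ℕ} (hp : 0 < z.2 p) (hp' : 0 < z'.2 p') (hpq : (p, p') ∈ q)
    (hmq : (m, m') ∈ q)
    (h : BF (lift (mkRS k (PZ K z))) (lift (mkRS k (PZ K z'))) univ univ (2 : ℕ) q) :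
    z.2 m / z.2 p = z'.2 m' / z'.2 p' := by
  have hs : ∀ m n, sm z m n := fun m n => by
    unfold sm
    rw [h1]
    exact ⟨rfl, rfl⟩
  have hs' : ∀ m n, sm z' m n := fun m n => by
    unfold sm
    rw [h1']
    exact ⟨rfl, rfl⟩
  refine ratio hp hp' fun a b => ?_
  obtain ⟨j, hj1, hj2⟩ := hz.smul ((a : K) : ℝ) (a : K).2 p
  obtain ⟨l, hl1, hl2⟩ := hz.smul ((b : K) : ℝ) (b : K).2 m
  obtain ⟨j', -, h2⟩ := h.forth (o' := (1 : ℕ)) (by exact_mod_cast one_lt_two) (mem_univ j)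
  obtain ⟨l', -, h3⟩ := h2.forth (o' := (0 : ℕ)) (by exact_mod_cast zero_lt_one) (mem_univ l)
  obtain ⟨h4, h5⟩ := piso_PR hk h3.piso
  have e1 := (h5 (a : K) (p, p') (mem_insert_of_mem _ (mem_insert_of_mem _ hpq)) (j, j')
    (mem_insert_of_mem _ (mem_insert _ _))).1 ⟨hs _ _, hj2.symm⟩
  have e2 := (h5 (b : K) (m, m') (mem_insert_of_mem _ (mem_insert_of_mem _ hmq)) (l, l')
    (mem_insert _ _)).1 ⟨hs _ _, hl2.symm⟩
  have e3 := h4 (j, j') (mem_insert_of_mem _ (mem_insert _ _)) (l, l') (mem_insert _ _)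
  have e1' := e1.2
  have e2' := e2.2
  push_cast at hj2 hl2 e1' e2'
  rw [← hj2, ← hl2, e1', e2']
  constructor
  · intro h6
    exact (e3.1 ⟨hs _ _, h6⟩).2
  · intro h6
    exact (e3.2 ⟨hs' _ _, h6⟩).2

theorem riso_of_BF {k : ℕ → K} (hk : Function.Surjective k) {z z' : Z} (hz : Z0 K z)
    (hz' : Z0 K z') (h1 : z.1 = fun _ _ => false) (h1' : z'.1 = fun _ _ => false)
    {p p' : ℕ} (hp : 0 < z.2 p) (hp' : 0 < z'.2 p')
    (h : BF (lift (mkRS k (PZ K z))) (lift (mkRS k (PZ K z'))) univ univ (3 : ℕ) {(p, p')}) :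
    RIso (mkRS k (PZ K z)) (mkRS k (PZ K z')) := by
  have hs : ∀ m n, sm z m n := fun m n => by
    unfold sm
    rw [h1]
    exact ⟨rfl, rfl⟩
  have hs' : ∀ m n, sm z' m n := fun m n => by
    unfold sm
    rw [h1']
    exact ⟨rfl, rfl⟩
  have hlt : ((2 : ℕ) : Ordinal.{0}) < (3 : ℕ) := by exact_mod_cast (by norm_num : 2 < 3)
  have fw : ∀ m, ∃ m', z.2 m / z.2 p = z'.2 m' / z'.2 p' := by
    intro m
    obtain ⟨m', -, h2⟩ := h.forth hlt (mem_univ m)
    exact ⟨m', ratio_BF hk hz h1 h1' hp hp' (mem_insert_of_mem _ (mem_singleton _)) (mem_insert _ _) h2⟩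
  have bw : ∀ m', ∃ m, z.2 m / z.2 p = z'.2 m' / z'.2 p' := by
    intro m'
    obtain ⟨m, -, h2⟩ := h.back hlt (mem_univ m')
    exact ⟨m, ratio_BF hk hz h1 h1' hp hp' (mem_insert_of_mem _ (mem_singleton _)) (mem_insert _ _) h2⟩
  choose f hf using fw
  choose g hg using bw
  have hgf : ∀ m, g (f m) = m := by
    intro m
    refine hz.inj _ _ (hs _ _) ?_
    have := (hg (f m)).trans (hf m).symm
    exact (div_left_inj' hp.ne').1 this
  have hfg : ∀ m, f (g m) = m := by
    intro m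
    refine hz'.inj _ _ (hs' _ _) ?_
    have := (hf (g m)).symm.trans (hg m)
    exact (div_left_inj' hp'.ne').1 this
  set c := z'.2 p' / z.2 p with hc
  have hc0 : 0 < c := div_pos hp' hp
  have hfc : ∀ m, z'.2 (f m) = c * z.2 m := by
    intro m
    have := hf m
    rw [div_eq_div_iff hp.ne' hp'.ne'] at this
    rw [hc, div_mul_eq_mul_div, eq_div_iff hp.ne', ← this]
    ring
  refine ⟨⟨f, g, hgf, hfg⟩, ?_⟩
  refine (mkRS_iff hk f).2 ⟨?_, ?_, ?_⟩
  · intro m n
    show sm z' _ _ ∧ z'.2 (f m) < z'.2 (f n) ↔ sm z _ _ ∧ z.2 m < z.2 n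
    rw [hfc, hfc, mul_lt_mul_iff_right₀ hc0]
    exact ⟨fun h => ⟨hs _ _, h.2⟩, fun h => ⟨hs' _ _, h.2⟩⟩
  · intro m n l
    show sm z' _ _ ∧ sm z' _ _ ∧ z'.2 (f m) + z'.2 (f n) = z'.2 (f l) ↔
      sm z _ _ ∧ sm z _ _ ∧ z.2 m + z.2 n = z.2 l
    rw [hfc, hfc, hfc, ← mul_add, mul_right_inj' hc0.ne']
    exact ⟨fun h => ⟨hs _ _, hs _ _, h.2.2⟩, fun h => ⟨hs' _ _, hs' _ _, h.2.2⟩⟩
  · intro s m n
    show sm z' _ _ ∧ (s : ℝ) * z'.2 (f m) = z'.2 (f n) ↔ sm z _ _ ∧ (s : ℝ) * z.2 m = z.2 n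
    rw [hfc, hfc, mul_left_comm, mul_right_inj' hc0.ne']
    exact ⟨fun h => ⟨hs _ _, h.2⟩, fun h => ⟨hs' _ _, h.2⟩⟩

theorem vcB {k : ℕ → K} (hk : Function.Surjective k) : VC (VB k) := by
  classical
  intro B hB hBi hBV
  by_cases few : ∃ g : (ℕ → Bool) → RS ar, Continuous g ∧ (∀ c, g c ∈ B) ∧
      ∀ c d, RIso (g c) (g d) → c = d
  · exact Or.inr few
  left
  set K' : Set (St ar) := {M | M.1 = (fun _ _ => false) ∧ M.2 ∈ B} with hK'
  have hK'm : MeasurableSet K' := by
    refine MeasurableSet.inter ?_ (measurable_snd hB)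
    exact (isClosed_eq continuous_fst continuous_const).measurableSet
  have hl : ∀ M ∈ K', M = lift M.2 := fun M hM => Prod.ext hM.1 rfl
  have few' : ¬ ∃ g : (ℕ → Bool) → St ar, Continuous g ∧ (∀ c, g c ∈ K') ∧
      ∀ c d, IsoOn (g c) (g d) univ univ ∅ → c = d := by
    rintro ⟨h, h1, h2, h3⟩
    refine few ⟨fun c => (h c).2, continuous_snd.comp h1, fun c => (h2 c).2, fun c d hcd => ?_⟩
    refine h3 c d ?_
    rw [hl _ (h2 c), hl _ (h2 d)]
    exact riso_iff.1 hcd
  obtain ⟨lab, hlab⟩ := labels hK'm few' (3 : ℕ) (by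
    exact (Ordinal.natCast_lt_omega0 3).trans_le (Ordinal.omega0_le_omega 1))
  have hdat : ∀ x : RS ar, ∃ (z : Z) (p : ℕ), x ∈ B → Z0 K z ∧ z.1 = (fun _ _ => false) ∧
      x = mkRS k (PZ K z) ∧ 0 < z.2 p := by
    intro x
    by_cases hx : x ∈ B
    · obtain ⟨z, h1, h2, h3⟩ := hBV x hx
      obtain ⟨p, -, hp⟩ := h1.exists_pos 0
      exact ⟨z, p, fun _ => ⟨h1, h2, h3, hp⟩⟩
    · exact ⟨(fun _ _ => false, fun _ => 0), 0, fun h => absurd h hx⟩
  choose zz pp hzp using hdat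
  let nn : RS ar → ℕ := fun x => lab (lift x) [pp x]
  refine ⟨fun n => if h : ∃ x ∈ B, nn x = n then h.choose else fun _ _ => false, fun x hx => ?_⟩
  refine ⟨nn x, ?_⟩
  have hex : ∃ y ∈ B, nn y = nn x := ⟨x, hx, rfl⟩
  simp only [dif_pos hex]
  obtain ⟨hy1, hy2⟩ := hex.choose_spec
  set y := hex.choose
  obtain ⟨a1, a2, a3, a4⟩ := hzp y hy1
  obtain ⟨b1, b2, b3, b4⟩ := hzp x hx
  have h5 := hlab (lift y) ⟨rfl, hy1⟩ (lift x) ⟨rfl, hx⟩ [pp y] [pp x] rfl hy2
  have h6 : zipSet [pp y] [pp x] = {(pp y, pp x)} := by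
    ext u
    simp [zipSet]
  rw [h6] at h5
  have h7 : BF (lift (mkRS k (PZ K (zz y)))) (lift (mkRS k (PZ K (zz x)))) univ univ (3 : ℕ)
      {(pp y, pp x)} := by
    rw [← a3, ← b3]
    exact h5
  have h8 := riso_of_BF hk a1 b1 a2 b2 a4 b4 h7
  rw [← a3, ← b3] at h8
  exact h8

end Pool.Agent.TH783.OV
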