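import Pool.Agent.TH783.OV.Meas
import Pool.Agent.H533R2.VO.All

set_option autoImplicit false
set_option linter.unusedSectionVars false

/-! The dichotomy for the codes of index structures. -/

namespace Pool.Agent.TH783.OV

open Set MeasureTheory
open Pool.Agent.H533R2.VO (RS RIso Dich VC lift OS Ic BlkV)
open Pool.Agent.H899R2.VP (St Adj PIso BF IsoOn BF_iff labels zipSet)
open Pool.Agent.TH783.TR

variable {K : Subring ℝ}

theorem nadj_of_sm {k : ℕ → K} {z : Z} {m n : ℕ} (h : sm z m n) : ¬ Adj (Ph k z) m n := by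
  intro h1
  have h2 : z.1 m n = true := h1
  rw [h.1] at h2
  exact Bool.false_ne_true h2

theorem Ph_os (k : ℕ → K) {z : Z} (hz : Z0 K z) : OS (Ph k z) := by
  classical
  refine ⟨?_, ?_, ?_, ?_⟩
  · intro x h
    have h2 : z.1 x x = true := h
    rw [hz.irr] at h2
    exact Bool.false_ne_true h2
  · exact fun x y w h1 h2 => hz.tr x y w h1 h2
  · exact fun x y w h1 => hz.wk x y w h1
  · intro i t ht
    match i, t, ht with
    | 0, t, ht =>
      have h1 : sm z (t (0 : Fin 2)) (t (1 : Fin 2)) := by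
        have h2 := of_decide_eq_true ht
        exact h2.1
      intro j l
      change Fin 2 at j l
      match j, l with
      | 0, 0 => exact nadj_of_sm (hz.refl _)
      | 0, 1 => exact nadj_of_sm h1
      | 1, 0 => exact nadj_of_sm h1.symm
      | 1, 1 => exact nadj_of_sm (hz.refl _)
    | 1, t, ht =>
      obtain ⟨h1, h3, -⟩ : sm z (t (0 : Fin 3)) (t (1 : Fin 3)) ∧
          sm z (t (0 : Fin 3)) (t (2 : Fin 3)) ∧
          z.2 (t (0 : Fin 3)) + z.2 (t (1 : Fin 3)) = z.2 (t (2 : Fin 3)) := by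
        have h2 := of_decide_eq_true ht
        exact h2
      intro j l
      change Fin 3 at j l
      match j, l with
      | 0, 0 => exact nadj_of_sm (hz.refl _)
      | 0, 1 => exact nadj_of_sm h1
      | 0, 2 => exact nadj_of_sm h3
      | 1, 0 => exact nadj_of_sm h1.symm
      | 1, 1 => exact nadj_of_sm (hz.refl _)
      | 1, 2 => exact nadj_of_sm (hz.trans h1.symm h3)
      | 2, 0 => exact nadj_of_sm h3.symm
      | 2, 1 => exact nadj_of_sm (hz.trans h3.symm h1)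
      | 2, 2 => exact nadj_of_sm (hz.refl _)
    | j' + 2, t, ht =>
      have h1 : sm z (t (0 : Fin 2)) (t (1 : Fin 2)) := by
        have h2 := of_decide_eq_true ht
        exact h2.1
      intro j l
      change Fin 2 at j l
      match j, l with
      | 0, 0 => exact nadj_of_sm (hz.refl _)
      | 0, 1 => exact nadj_of_sm h1
      | 1, 0 => exact nadj_of_sm h1.symm
      | 1, 1 => exact nadj_of_sm (hz.refl _)

theorem Ph_blk {k : ℕ → K} (hk : Function.Surjective k) {z : Z} (hz : Z0 K z) :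
    BlkV (VB k) (Ph k z) := by
  intro x e he hI
  have hmem : ∀ y, sm z x y ↔ ∃ n, e n = y := by
    intro y
    rw [← hI]
    unfold Ic sm
    show z.1 x y = false ∧ z.1 y x = false ↔ ¬ z.1 y x = true ∧ ¬ z.1 x y = true
    rw [Bool.not_eq_true, Bool.not_eq_true]
    exact and_comm
  have hxe : ∀ n, sm z x (e n) := fun n => (hmem _).2 ⟨n, rfl⟩
  have hee : ∀ m n, sm z (e m) (e n) := fun m n => hz.trans (hxe m).symm (hxe n)
  have hget : ∀ m y, sm z (e m) y → ∃ n, e n = y := fun m y h =>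
    (hmem y).1 (hz.trans (hxe m) h)
  set w : Z := (fun _ _ => false, fun n => z.2 (e n)) with hw
  have hws : ∀ m n, sm w m n := fun m n => ⟨rfl, rfl⟩
  refine ⟨w, ⟨?_, ?_, ?_, ?_, ?_, ?_, ?_⟩, rfl, ?_⟩
  · intro m
    rfl
  · intro m n l h
    exact absurd h Bool.false_ne_true
  · intro m n l h
    exact absurd h Bool.false_ne_true
  · intro m n _ h
    exact he (hz.inj _ _ (hee m n) h)
  · intro m n _
    obtain ⟨y, h1, h2⟩ := hz.add _ _ (hee m n)
    obtain ⟨l, rfl⟩ := hget m y h1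
    exact ⟨l, hws _ _, h2⟩
  · intro s hs m
    obtain ⟨y, h1, h2⟩ := hz.smul s hs (e m)
    obtain ⟨l, rfl⟩ := hget m y h1
    exact ⟨l, hws _ _, h2⟩
  · intro m
    obtain ⟨y, h1, h2⟩ := hz.nz (e m)
    obtain ⟨l, rfl⟩ := hget m y h1
    exact ⟨l, hws _ _, h2⟩
  · funext i v
    refine (mkRS_iff hk (P := PZ K w) (P' := PZ K z) e).2 ⟨?_, ?_, ?_⟩ i v
    · intro m n
      exact ⟨fun h => ⟨hws _ _, h.2⟩, fun h => ⟨hee _ _, h.2⟩⟩
    · intro m n l
      exact ⟨fun h => ⟨hws _ _, hws _ _, h.2.2⟩, fun h => ⟨hee _ _, hee _ _, h.2.2⟩⟩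
    · intro s m n
      exact ⟨fun h => ⟨hws _ _, h.2⟩, fun h => ⟨hee _ _, h.2⟩⟩

theorem vcD {k : ℕ → K} (hk : Function.Surjective k) (B : Set (St ar))
    (hBD : B ⊆ Ph k '' {z : Z | Z0 K z}) (hB : MeasurableSet B)
    (hBi : ∀ y ∈ B, ∀ y', SI y y' → y' ∈ B) :
    (∃ f : ℕ → St ar, ∀ y ∈ B, ∃ n, f n ∈ B ∧ SI (f n) y) ∨
    (∃ g : (ℕ → Bool) → St ar, Continuous g ∧ (∀ c, g c ∈ B) ∧
      ∀ c d, SI (g c) (g d) → c = d) := by
  rcases Pool.Agent.H533R2.VO.final ar (VB k) (vcB hk) B hB (by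
      intro M N σ h1 h2
      constructor
      · intro hM
        exact hBi M hM N ⟨σ, h1, h2⟩
      · intro hN
        exact hBi N hN M (SI.symm ⟨σ, h1, h2⟩)) (by
      intro M hM
      obtain ⟨z, hz, rfl⟩ := hBD hM
      exact ⟨Ph_os k hz, Ph_blk hk hz⟩) with ⟨f, hf⟩ | ⟨g, hg1, hg2, hg3⟩
  · left
    refine ⟨f, fun y hy => ?_⟩
    obtain ⟨n, σ, h1, h2⟩ := hf y hy
    exact ⟨n, hBi y hy _ (SI.symm ⟨σ, h1, h2⟩), σ, h1, h2⟩
  · right
    exact ⟨g, hg1, hg2, fun c d h => hg3 c d h⟩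

end Pool.Agent.TH783.OV
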